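import Pool.Agent.RST42.Walk

/-! The greedy exploration: exponential bound for its total time. -/

namespace Pool.Agent.RST42

open Finset Classical

variable {V Γ : Type*} [Fintype Γ] {p : Γ → ℝ} {G : Γ → SimpleGraph V}

/-- total cost along a list of vertices (visited in this order) -/
noncomputable def tot (cost : V → Finset V → ℕ) : List V → ℕ
  | [] => 0
  | x :: l => (if l = [] then 0 else cost x l.toFinset) + tot cost l

theorem tot_cons (cost : V → Finset V → ℕ) (x : V) {l : List V} (hl : l ≠ []) :
    tot cost (x :: l) = cost x l.toFinset + tot cost l := by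
  rw [tot, if_neg hl]

theorem step_ineq {r u : ℝ} (hr : 1 / 8 ≤ r) (hr1 : r ≤ 1) (hu : 0 ≤ u) (hu1 : u ≤ 1 / 16) :
    r * Real.exp (-16 * u) + (1 - r) ≤ Real.exp (-u) := by
  have h1 : Real.exp (-16 * u) ≤ 1 / (1 + 16 * u + (16 * u) ^ 2 / 2) := by
    have h2 := Real.quadratic_le_exp_of_nonneg (x := 16 * u) (by linarith)
    have h3 : Real.exp (-16 * u) = 1 / Real.exp (16 * u) := by
      rw [show -16 * u = -(16 * u) by ring, Real.exp_neg, one_div]
    rw [h3]
    exact one_div_le_one_div_of_le (by positivity) h2
  have h4 : 1 - u ≤ Real.exp (-u) := by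
    have := Real.add_one_le_exp (-u)
    linarith
  have h5 : 1 / (1 + 16 * u + (16 * u) ^ 2 / 2) ≤ 1 - 8 * u := by
    rw [div_le_iff₀ (by positivity)]
    nlinarith [mul_nonneg hu (mul_nonneg (by linarith : (0 : ℝ) ≤ 1 / 16 - u) hu),
      mul_nonneg hu (mul_nonneg (by linarith : (0 : ℝ) ≤ 1 / 16 - u)
        (by linarith : (0 : ℝ) ≤ 1 / 16 + u))]
  have h6 : Real.exp (-16 * u) ≤ 1 - 8 * u := h1.trans h5
  have h7 : Real.exp (-16 * u) ≤ 1 := by linarith
  nlinarith [mul_le_mul_of_nonneg_right hr (by linarith : (0 : ℝ) ≤ 1 - Real.exp (-16 * u))]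

theorem pf_exp (h : IsLaw p) {lam : ℝ} (hlam : 0 < lam) (cost : V → Finset V → ℕ)
    (hcost : ∀ x U, U.Nonempty → x ∉ U → 1 ≤ cost x U ∧
      ((lam * cost x U ≤ 1 / 16 ∧ 1 / 8 ≤ q p G (cost x U) x U) ∨ q p G (cost x U) x U = 1)) :
    ∀ (n : ℕ) (U : Finset V), U.card = n → ∀ x ∉ U, ∀ β : ℝ,
      (∀ l : List V, l.Nodup → l.toFinset = U → (tot cost (x :: l) : ℝ) ≤ β) →
      ∀ N : ℕ, pf p G N x U ≤ Real.exp (lam * (16 * β - N)) := by
  intro n
  induction n with
  | zero =>
    intro U hU x _ β _ N
    rw [Finset.card_eq_zero] at hU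
    rw [hU, pf_empty]
    exact (Real.exp_pos _).le
  | succ n ih =>
    intro U hU x hx β hβ N
    have hne : U.Nonempty := by
      rw [← Finset.card_pos]; omega
    obtain ⟨hS1, hS⟩ := hcost x U hne hx
    have hβS : (cost x U : ℝ) ≤ β := by
      have h1 := hβ U.toList U.nodup_toList (Finset.toList_toFinset U)
      rw [tot_cons cost x (by simpa using hne.ne_empty), Finset.toList_toFinset] at h1
      push_cast at h1
      have : (0 : ℝ) ≤ (tot cost U.toList : ℝ) := Nat.cast_nonneg _
      linarith
    induction N using Nat.strong_induction_on with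
    | _ N ihN =>
      by_cases hN : N < cost x U
      · refine (pf_le_one h N x U).trans ?_
        rw [← Real.exp_zero]
        refine Real.exp_le_exp.2 (mul_nonneg hlam.le ?_)
        have : (N : ℝ) < cost x U := by exact_mod_cast hN
        have h0 : (0 : ℝ) ≤ N := Nat.cast_nonneg _
        linarith
      · obtain ⟨N', rfl⟩ := Nat.exists_eq_add_of_le (not_lt.1 hN)
        have h1 := ihN N' (by omega)
        have h2 : ∀ y ∈ U, pf p G N' y (U.erase y) ≤
            Real.exp (lam * (16 * (β - cost x U) - N')) := by
          intro y hy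
          refine ih (U.erase y) (by rw [Finset.card_erase_of_mem hy, hU]; rfl) y
            (Finset.notMem_erase y U) (β - cost x U) (fun l hl hlU => ?_) N'
          have hyl : y ∉ l := fun h' => by
            have : y ∈ U.erase y := by rw [← hlU]; simpa using h'
            exact Finset.notMem_erase y U this
          have e : (y :: l).toFinset = U := by
            rw [List.toFinset_cons, hlU, Finset.insert_erase hy]
          have h3 := hβ (y :: l) (List.nodup_cons.2 ⟨hyl, hl⟩) e
          rw [tot_cons cost x (by simp), e] at h3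
          push_cast at h3
          linarith
        refine (pf_step h (cost x U) N' x U h2 h1).trans ?_
        set S : ℝ := (cost x U : ℝ) with hSdef
        set r := q p G (cost x U) x U with hr
        have e1 : Real.exp (lam * (16 * (β - S) - N')) =
            Real.exp (lam * (16 * β - N')) * Real.exp (-16 * (lam * S)) := by
          rw [← Real.exp_add]; congr 1; ring
        have e2 : Real.exp (lam * (16 * β - ((cost x U + N' : ℕ) : ℝ))) =
            Real.exp (lam * (16 * β - N')) * Real.exp (-(lam * S)) := by
          rw [← Real.exp_add]; congr 1; push_cast; ring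
        rw [e1, e2]
        have hu : 0 ≤ lam * S := mul_nonneg hlam.le (Nat.cast_nonneg _)
        have key : r * Real.exp (-16 * (lam * S)) + (1 - r) ≤ Real.exp (-(lam * S)) := by
          rcases hS with ⟨h3, h4⟩ | h3
          · exact step_ineq h4 (q_le_one h _ _ _) hu h3
          · rw [h3]
            have : Real.exp (-16 * (lam * S)) ≤ Real.exp (-(lam * S)) :=
              Real.exp_le_exp.2 (by linarith)
            linarith
        have h5 := mul_le_mul_of_nonneg_left key (Real.exp_pos (lam * (16 * β - N'))).le
        linarith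

end Pool.Agent.RST42
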