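import Pool.Agent.RST42.KL2
import Pool.Agent.RST42.Greedy

/-! Counting the expensive steps of the greedy exploration. -/

namespace Pool.Agent.RST42

open Finset Classical

variable {V Γ : Type*} [Fintype Γ] {p : Γ → ℝ} {G : Γ → SimpleGraph V}

/-- the vertices of a list from which the later ones are not easily reached in time `t` -/
noncomputable def badl (p : Γ → ℝ) (G : Γ → SimpleGraph V) (t : ℕ) : List V → List V
  | [] => []
  | x :: l => if l ≠ [] ∧ q p G t x l.toFinset < 1 / 8 then x :: badl p G t l else badl p G t l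

theorem badl_sublist (t : ℕ) (l : List V) : (badl p G t l).Sublist l := by
  induction l with
  | nil => exact List.Sublist.refl _
  | cons x l ih =>
    rw [badl]
    split_ifs
    · exact ih.cons_cons x
    · exact ih.cons x

/-- from no vertex of the list the later ones are easily reached -/
def AllBad (p : Γ → ℝ) (G : Γ → SimpleGraph V) (t : ℕ) : List V → Prop
  | [] => True
  | x :: l => q p G t x l.toFinset < 1 / 8 ∧ AllBad p G t l

theorem allBad_badl (h : IsLaw p) (t : ℕ) (l : List V) : AllBad p G t (badl p G t l) := by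
  induction l with
  | nil => trivial
  | cons x l ih =>
    rw [badl]
    split_ifs with hc
    · refine ⟨lt_of_le_of_lt (q_mono_set h t x ?_) hc.2, ih⟩
      intro y hy
      rw [List.mem_toFinset] at hy ⊢
      exact (badl_sublist t l).subset hy
    · exact ih

theorem AllBad.drop {t : ℕ} {l : List V} (hl : AllBad p G t l) (j : ℕ) (hj : j < l.length) :
    q p G t l[j] (l.drop (j + 1)).toFinset < 1 / 8 := by
  induction l generalizing j with
  | nil => simp at hj
  | cons x l ih =>
    cases j with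
    | zero => simpa using hl.1
    | succ j => simpa using ih hl.2 j (by simpa using hj)

theorem AllBad.get (h : IsLaw p) {t : ℕ} {l : List V} (hl : AllBad p G t l) (j : Fin l.length) :
    q p G t (l.get j) ((univ.filter (fun i => j < i)).image l.get) < 1 / 8 := by
  refine lt_of_le_of_lt (q_mono_set h t _ ?_) (hl.drop j.1 j.2)
  intro y hy
  obtain ⟨i, hi, rfl⟩ := Finset.mem_image.1 hy
  have hi' : j.1 < i.1 := (Finset.mem_filter.1 hi).2
  rw [List.mem_toFinset, List.mem_iff_getElem]
  refine ⟨i.1 - (j.1 + 1), ?_, ?_⟩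
  · rw [List.length_drop]; omega
  · rw [List.getElem_drop]
    simp only [List.get_eq_getElem]
    congr 1
    omega

/-- cost of a step: the least time with probability `1/8`, if it is at most `S`; else `n` -/
noncomputable def cost (p : Γ → ℝ) (G : Γ → SimpleGraph V) (S n : ℕ) (x : V) (U : Finset V) : ℕ :=
  if hS : ∃ s, s ≤ S ∧ 1 / 8 ≤ q p G s x U then Nat.find hS else n

theorem cost_le (S n : ℕ) (x : V) (U : Finset V) :
    cost p G S n x U ≤ (∑ t ∈ range S, if q p G t x U < 1 / 8 then 1 else 0) +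
      n * (if q p G S x U < 1 / 8 then 1 else 0) := by
  unfold cost
  split_ifs with hS h2 h2
  · refine le_trans ?_ (Nat.le_add_right _ _)
    have h3 := Nat.find_spec hS
    calc Nat.find hS = ∑ _t ∈ range (Nat.find hS), 1 := by simp
      _ ≤ ∑ t ∈ range (Nat.find hS), (if q p G t x U < 1 / 8 then 1 else 0) := by
          refine Finset.sum_le_sum fun t ht => ?_
          rw [if_pos]
          by_contra hc
          exact Nat.find_min hS (Finset.mem_range.1 ht)
            ⟨(Finset.mem_range.1 ht).le.trans h3.1, not_lt.1 hc⟩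
      _ ≤ _ := Finset.sum_le_sum_of_subset (Finset.range_subset_range.2 h3.1)
  · refine le_trans ?_ (Nat.le_add_right _ _)
    have h3 := Nat.find_spec hS
    calc Nat.find hS = ∑ _t ∈ range (Nat.find hS), 1 := by simp
      _ ≤ ∑ t ∈ range (Nat.find hS), (if q p G t x U < 1 / 8 then 1 else 0) := by
          refine Finset.sum_le_sum fun t ht => ?_
          rw [if_pos]
          by_contra hc
          exact Nat.find_min hS (Finset.mem_range.1 ht)
            ⟨(Finset.mem_range.1 ht).le.trans h3.1, not_lt.1 hc⟩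
      _ ≤ _ := Finset.sum_le_sum_of_subset (Finset.range_subset_range.2 h3.1)
  · omega
  · exact absurd ⟨S, le_rfl, not_lt.1 h2⟩ hS

theorem tot_le (S n : ℕ) (l : List V) :
    tot (cost p G S n) l ≤ (∑ t ∈ range S, (badl p G t l).length) +
      n * (badl p G S l).length := by
  induction l with
  | nil => simp [tot]
  | cons x l ih =>
    by_cases hl : l = []
    · subst hl
      simp [tot]
    · rw [tot_cons _ x hl]
      have e : ∀ t, (badl p G t (x :: l)).length =
          (if q p G t x l.toFinset < 1 / 8 then 1 else 0) + (badl p G t l).length := by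
        intro t
        rw [badl]
        by_cases hc : q p G t x l.toFinset < 1 / 8
        · rw [if_pos ⟨hl, hc⟩, if_pos hc, List.length_cons]; ring
        · rw [if_neg (fun h' => hc h'.2), if_neg hc, zero_add]
      simp_rw [e]
      rw [Finset.sum_add_distrib, mul_add]
      have := cost_le (p := p) (G := G) S n x l.toFinset
      omega

section bounds

variable [Fintype V] {φ : Γ → V → V}

theorem badl_length_le (h : IsLaw p) (hadj : ∀ g v, (G g).Adj v (φ g v)) {d : ℕ} (hd1 : 1 ≤ d)
    (hd : ∀ g w, (univ.filter (fun v => φ g v = w)).card ≤ d) {θ : ℝ} (hθ0 : 0 ≤ θ)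
    (hθ : ∀ v w, P1 p (fun g => φ g v = w) ≤ θ) {T t : ℕ} (hT : 1 ≤ T) (ht : 2 * T ≤ t)
    (h2 : 128 * θ * Fintype.card V ≤ T) {l : List V} (hl : l.Nodup) :
    ((badl p G t l).length : ℝ) ≤ 8 * Fintype.card V * θ +
      4096 * d * Fintype.card V / (T : ℝ) ^ 2 := by
  by_contra hc
  rw [not_le] at hc
  have hTpos : (0 : ℝ) < T := by exact_mod_cast hT
  have a1 : 0 ≤ 8 * (Fintype.card V : ℝ) * θ := by positivity
  have a2 : 0 ≤ 4096 * (d : ℝ) * Fintype.card V / (T : ℝ) ^ 2 := by positivity
  have hm : 0 < (badl p G t l).length := by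
    have : (0 : ℝ) < ((badl p G t l).length : ℝ) := by linarith
    exact_mod_cast this
  have hnd : (badl p G t l).Nodup := (badl_sublist t l).nodup hl
  refine key_lemma (Y := (badl p G t l).get) h hadj hd1 hd hθ0 hθ
    (List.nodup_iff_injective_get.1 hnd) hT (fun j => ?_) hm (by linarith) h2 ?_
  · exact lt_of_le_of_lt (q_mono_time h ht _ _) ((allBad_badl h t l).get h j)
  · have : 4096 * (d : ℝ) * Fintype.card V / (T : ℝ) ^ 2 ≤ ((badl p G t l).length : ℝ) := by
      linarith
    rw [div_le_iff₀ (by positivity)] at this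
    linarith

theorem badl_length_le_card {t : ℕ} {l : List V} (hl : l.Nodup) :
    ((badl p G t l).length : ℝ) ≤ Fintype.card V := by
  have := ((badl_sublist (p := p) (G := G) t l).nodup hl).length_le_card
  exact_mod_cast this

theorem sum_len (h : IsLaw p) (hadj : ∀ g v, (G g).Adj v (φ g v)) {d : ℕ} (hd1 : 1 ≤ d)
    (hd : ∀ g w, (univ.filter (fun v => φ g v = w)).card ≤ d) {θ : ℝ} (hθ0 : 0 ≤ θ)
    (hθ : ∀ v w, P1 p (fun g => φ g v = w) ≤ θ) {T0 : ℕ} (hT : 1 ≤ T0)
    (h2 : 128 * θ * Fintype.card V ≤ T0) {l : List V} (hl : l.Nodup) :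
    ∀ k : ℕ, T0 ≤ k → (∑ t ∈ range (2 * k), ((badl p G t l).length : ℝ)) ≤
      2 * Fintype.card V * T0 + 16 * Fintype.card V * θ * k +
        8192 * d * Fintype.card V * (2 / T0 - 2 / k) := by
  intro k hk
  have hTpos : (0 : ℝ) < T0 := by exact_mod_cast hT
  induction k, hk using Nat.le_induction with
  | base =>
    have a1 : 0 ≤ 16 * (Fintype.card V : ℝ) * θ * T0 := by positivity
    have a2 : (∑ t ∈ range (2 * T0), ((badl p G t l).length : ℝ)) ≤
        ∑ _t ∈ range (2 * T0), (Fintype.card V : ℝ) :=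
      Finset.sum_le_sum fun t _ => badl_length_le_card hl
    rw [Finset.sum_const, Finset.card_range, nsmul_eq_mul] at a2
    push_cast at a2
    rw [sub_self, mul_zero]
    linarith
  | succ k hk ih =>
    have hk1 : 1 ≤ k := hT.trans hk
    have hkpos : (0 : ℝ) < k := by exact_mod_cast hk1
    have hk' : (T0 : ℝ) ≤ k := by exact_mod_cast hk
    have b1 := badl_length_le h hadj hd1 hd hθ0 hθ hk1 (le_refl (2 * k)) (h2.trans hk') hl
    have b2 := badl_length_le h hadj hd1 hd hθ0 hθ hk1 (Nat.le_succ (2 * k)) (h2.trans hk') hl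
    rw [show 2 * (k + 1) = 2 * k + 1 + 1 by ring, Finset.sum_range_succ, Finset.sum_range_succ]
    have b3 : 1 / (k : ℝ) ^ 2 ≤ 2 / k - 2 / (k + 1) := by
      rw [div_sub_div _ _ hkpos.ne' (by positivity), div_le_div_iff₀ (by positivity) (by positivity)]
      have : (1 : ℝ) ≤ k := by exact_mod_cast hk1
      nlinarith
    have b4 : 4096 * (d : ℝ) * Fintype.card V / (k : ℝ) ^ 2 ≤
        4096 * d * Fintype.card V * (2 / k - 2 / (k + 1)) := by
      rw [div_eq_mul_one_div]
      exact mul_le_mul_of_nonneg_left b3 (by positivity)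
    have b2' : ((badl p G (2 * k + 1) l).length : ℝ) ≤ 8 * Fintype.card V * θ +
      4096 * d * Fintype.card V / (k : ℝ) ^ 2 := b2
    push_cast
    have e : 2 * (Fintype.card V : ℝ) * T0 + 16 * Fintype.card V * θ * (k + 1) +
        8192 * d * Fintype.card V * (2 / T0 - 2 / (k + 1)) =
        (2 * (Fintype.card V : ℝ) * T0 + 16 * Fintype.card V * θ * k +
        8192 * d * Fintype.card V * (2 / T0 - 2 / k)) + 2 * (8 * Fintype.card V * θ) +
        2 * (4096 * d * Fintype.card V * (2 / k - 2 / (k + 1))) := by ring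
    rw [e]
    linarith

theorem tot_real (h : IsLaw p) (hadj : ∀ g v, (G g).Adj v (φ g v)) {d : ℕ} (hd1 : 1 ≤ d)
    (hd : ∀ g w, (univ.filter (fun v => φ g v = w)).card ≤ d) {θ : ℝ} (hθ0 : 0 ≤ θ)
    (hθ : ∀ v w, P1 p (fun g => φ g v = w) ≤ θ) {T0 T1 : ℕ} (hT : 1 ≤ T0) (hT1 : T0 ≤ T1)
    (h2 : 128 * θ * Fintype.card V ≤ T0) {l : List V} (hl : l.Nodup) :
    (tot (cost p G (2 * T1) (Fintype.card V)) l : ℝ) ≤
      2 * Fintype.card V * T0 + 16 * Fintype.card V * θ * T1 +
        16384 * d * Fintype.card V / T0 +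
        Fintype.card V * (8 * Fintype.card V * θ + 4096 * d * Fintype.card V / (T1 : ℝ) ^ 2) := by
  have hTpos : (0 : ℝ) < T0 := by exact_mod_cast hT
  have hT1pos : (0 : ℝ) < T1 := by exact_mod_cast hT.trans hT1
  have h3 : (T0 : ℝ) ≤ T1 := by exact_mod_cast hT1
  have a1 : (tot (cost p G (2 * T1) (Fintype.card V)) l : ℝ) ≤
      (∑ t ∈ range (2 * T1), ((badl p G t l).length : ℝ)) +
        Fintype.card V * ((badl p G (2 * T1) l).length : ℝ) := by
    exact_mod_cast tot_le (p := p) (G := G) (2 * T1) (Fintype.card V) l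
  have a2 := sum_len h hadj hd1 hd hθ0 hθ hT h2 hl T1 hT1
  have a3 := badl_length_le h hadj hd1 hd hθ0 hθ (hT.trans hT1) le_rfl (h2.trans h3) hl
  have a4 : (Fintype.card V : ℝ) * ((badl p G (2 * T1) l).length : ℝ) ≤
      Fintype.card V * (8 * Fintype.card V * θ + 4096 * d * Fintype.card V / (T1 : ℝ) ^ 2) :=
    mul_le_mul_of_nonneg_left a3 (by positivity)
  have a5 : 8192 * (d : ℝ) * Fintype.card V * (2 / T0 - 2 / T1) ≤
      16384 * d * Fintype.card V / T0 := by
    have : 0 ≤ 8192 * (d : ℝ) * Fintype.card V * (2 / T1) := by positivity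
    have e : 16384 * (d : ℝ) * Fintype.card V / T0 = 8192 * d * Fintype.card V * (2 / T0) := by ring
    rw [e, mul_sub]
    linarith
  linarith

end bounds

end Pool.Agent.RST42
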