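import Mathlib

/-! Means over a list of independent snapshots. -/

namespace Pool.Agent.RST42

open Finset

variable {Γ : Type*} [Fintype Γ]

/-- a probability law on the finite set of snapshots -/
structure IsLaw (p : Γ → ℝ) : Prop where
  nn : ∀ g, 0 ≤ p g
  one : ∑ g, p g = 1

/-- mean over one snapshot -/
noncomputable def E1 (p : Γ → ℝ) (F : Γ → ℝ) : ℝ := ∑ g, p g * F g

/-- mean over a list of `N` independent snapshots -/
noncomputable def Ex (p : Γ → ℝ) : ℕ → (List Γ → ℝ) → ℝ
  | 0, F => F []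
  | N + 1, F => ∑ g, p g * Ex p N (fun l => F (g :: l))

variable {p : Γ → ℝ}

theorem E1_mono (h : IsLaw p) {F F' : Γ → ℝ} (hF : ∀ g, F g ≤ F' g) : E1 p F ≤ E1 p F' :=
  Finset.sum_le_sum fun g _ => mul_le_mul_of_nonneg_left (hF g) (h.nn g)

theorem E1_nonneg (h : IsLaw p) {F : Γ → ℝ} (hF : ∀ g, 0 ≤ F g) : 0 ≤ E1 p F :=
  Finset.sum_nonneg fun g _ => mul_nonneg (h.nn g) (hF g)

theorem E1_const (h : IsLaw p) (c : ℝ) : E1 p (fun _ => c) = c := by
  unfold E1; rw [← Finset.sum_mul, h.one, one_mul]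

theorem E1_add (F F' : Γ → ℝ) : E1 p (fun g => F g + F' g) = E1 p F + E1 p F' := by
  unfold E1; rw [← Finset.sum_add_distrib]; exact Finset.sum_congr rfl fun g _ => by ring

theorem E1_smul (c : ℝ) (F : Γ → ℝ) : E1 p (fun g => c * F g) = c * E1 p F := by
  unfold E1; rw [Finset.mul_sum]; exact Finset.sum_congr rfl fun g _ => by ring

theorem E1_sum {ι : Type*} (s : Finset ι) (F : ι → Γ → ℝ) :
    E1 p (fun g => ∑ i ∈ s, F i g) = ∑ i ∈ s, E1 p (F i) := by
  unfold E1
  rw [Finset.sum_comm]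
  exact Finset.sum_congr rfl fun g _ => by rw [Finset.mul_sum]

theorem Ex_zero (F : List Γ → ℝ) : Ex p 0 F = F [] := rfl

theorem Ex_succ (N : ℕ) (F : List Γ → ℝ) :
    Ex p (N + 1) F = E1 p (fun g => Ex p N (fun l => F (g :: l))) := rfl

theorem Ex_mono (h : IsLaw p) {N : ℕ} {F F' : List Γ → ℝ}
    (hF : ∀ l : List Γ, l.length = N → F l ≤ F' l) : Ex p N F ≤ Ex p N F' := by
  induction N generalizing F F' with
  | zero => exact hF [] rfl
  | succ N ih =>
    exact E1_mono h fun g => ih fun l hl => hF (g :: l) (by simp [hl])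

theorem Ex_congr {N : ℕ} {F F' : List Γ → ℝ}
    (hF : ∀ l : List Γ, l.length = N → F l = F' l) : Ex p N F = Ex p N F' := by
  induction N generalizing F F' with
  | zero => exact hF [] rfl
  | succ N ih =>
    rw [Ex_succ, Ex_succ]
    congr 1
    funext g
    exact ih fun l hl => hF (g :: l) (by simp [hl])

theorem Ex_const (h : IsLaw p) (N : ℕ) (c : ℝ) : Ex p N (fun _ => c) = c := by
  induction N with
  | zero => rfl
  | succ N ih => rw [Ex_succ, ih, E1_const h]

theorem Ex_add (N : ℕ) (F F' : List Γ → ℝ) :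
    Ex p N (fun l => F l + F' l) = Ex p N F + Ex p N F' := by
  induction N generalizing F F' with
  | zero => rfl
  | succ N ih =>
    rw [Ex_succ, Ex_succ, Ex_succ, ← E1_add]
    congr 1
    funext g
    exact ih _ _

theorem Ex_smul (N : ℕ) (c : ℝ) (F : List Γ → ℝ) :
    Ex p N (fun l => c * F l) = c * Ex p N F := by
  induction N generalizing F with
  | zero => rfl
  | succ N ih =>
    rw [Ex_succ, Ex_succ, ← E1_smul]
    congr 1
    funext g
    exact ih _

theorem Ex_sum {ι : Type*} (N : ℕ) (s : Finset ι) (F : ι → List Γ → ℝ) :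
    Ex p N (fun l => ∑ i ∈ s, F i l) = ∑ i ∈ s, Ex p N (F i) := by
  induction N generalizing F with
  | zero => rfl
  | succ N ih =>
    rw [Ex_succ]
    simp_rw [Ex_succ]
    rw [← E1_sum]
    congr 1
    funext g
    exact ih _

theorem Ex_E1 (N : ℕ) (F : Γ → List Γ → ℝ) :
    Ex p N (fun l => E1 p (fun g => F g l)) = E1 p (fun g => Ex p N (F g)) := by
  unfold E1
  rw [Ex_sum]
  exact Finset.sum_congr rfl fun g _ => Ex_smul N _ _

theorem Ex_nonneg (h : IsLaw p) {N : ℕ} {F : List Γ → ℝ}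
    (hF : ∀ l : List Γ, l.length = N → 0 ≤ F l) : 0 ≤ Ex p N F := by
  have := Ex_mono h (F := fun _ => 0) hF
  rwa [Ex_const h] at this

theorem Ex_append (S T : ℕ) (F : List Γ → ℝ) :
    Ex p (S + T) F = Ex p S (fun l => Ex p T (fun l' => F (l ++ l'))) := by
  induction S generalizing F with
  | zero => rw [Nat.zero_add]; rfl
  | succ S ih =>
    rw [Nat.succ_add, Ex_succ, Ex_succ]
    congr 1
    funext g
    exact ih _

/-- the sum of `f` over a list -/
def ls (f : Γ → ℝ) (l : List Γ) : ℝ := (l.map f).sum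

theorem ls_nil (f : Γ → ℝ) : ls f [] = 0 := rfl

theorem ls_cons (f : Γ → ℝ) (g : Γ) (l : List Γ) : ls f (g :: l) = f g + ls f l := by
  simp [ls]

theorem ls_nonneg {f : Γ → ℝ} (hf : ∀ g, 0 ≤ f g) (l : List Γ) : 0 ≤ ls f l := by
  induction l with
  | nil => exact le_rfl
  | cons g l ih => rw [ls_cons]; exact add_nonneg (hf g) ih

theorem ls_pos_exists {f : Γ → ℝ} (l : List Γ) (h : 0 < ls f l) : ∃ g ∈ l, 0 < f g := by
  induction l with
  | nil => exact absurd h (lt_irrefl _)
  | cons g l ih =>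
    rw [ls_cons] at h
    by_cases hg : 0 < f g
    · exact ⟨g, by simp, hg⟩
    · obtain ⟨g', h1, h2⟩ := ih (by linarith [not_lt.1 hg])
      exact ⟨g', by simp [h1], h2⟩

theorem Ex_ls (h : IsLaw p) (T : ℕ) (f : Γ → ℝ) : Ex p T (ls f) = T * E1 p f := by
  induction T with
  | zero => simp [Ex_zero, ls_nil]
  | succ T ih =>
    rw [Ex_succ]
    have : (fun g => Ex p T (fun l => ls f (g :: l))) = fun g => f g + T * E1 p f := by
      funext g
      simp_rw [ls_cons]
      rw [Ex_add, Ex_const h]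
      congr 1
    rw [this, E1_add, E1_const h]
    push_cast
    ring

theorem Ex_ls_sq (h : IsLaw p) (T : ℕ) (f : Γ → ℝ) :
    Ex p T (fun l => ls f l ^ 2) = T * E1 p (fun g => f g ^ 2) + T * (T - 1) * E1 p f ^ 2 := by
  induction T with
  | zero => simp [Ex_zero, ls_nil]
  | succ T ih =>
    rw [Ex_succ]
    have : (fun g => Ex p T (fun l => ls f (g :: l) ^ 2)) =
        fun g => f g ^ 2 + (2 * (T * E1 p f) * f g +
          (T * E1 p (fun g => f g ^ 2) + T * (T - 1) * E1 p f ^ 2)) := by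
      funext g
      have e : (fun l => ls f (g :: l) ^ 2) = fun l => f g ^ 2 + (2 * f g * ls f l + ls f l ^ 2) := by
        funext l
        rw [ls_cons]; ring
      rw [e, Ex_add, Ex_const h, Ex_add, ih, Ex_smul]
      rw [show Ex p T (fun l => ls f l) = T * E1 p f from Ex_ls h T f]
      ring
    rw [this, E1_add, E1_add, E1_const h, E1_smul]
    push_cast
    ring

theorem E1_indicator_compl (h : IsLaw p) (P : Γ → Prop) [DecidablePred P] :
    E1 p (fun g => if P g then (1 : ℝ) else 0) = 1 - E1 p (fun g => if P g then (0 : ℝ) else 1) := by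
  have : E1 p (fun g => if P g then (1 : ℝ) else 0) + E1 p (fun g => if P g then (0 : ℝ) else 1)
      = 1 := by
    rw [← E1_add]
    have e : (fun g => (if P g then (1 : ℝ) else 0) + (if P g then (0 : ℝ) else 1)) =
        fun _ => (1 : ℝ) := by
      funext g
      by_cases hg : P g <;> simp [hg]
    rw [e, E1_const h]
  linarith

end Pool.Agent.RST42
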