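import Pool.Agent.RST42.Link

/-! The bound for independent random snapshots. -/

namespace Pool.Agent.RST42

open Finset Classical MeasureTheory ProbabilityTheory

theorem P1_eq {V : Type*} [Fintype V] (S : Set (SimpleGraph V)) (μ : PMF (SimpleGraph V))
    (hS : ∀ T, T ∉ S → μ T = 0) (A : Set (SimpleGraph V)) :
    (μ.toOuterMeasure A).toReal = P1 (fun g : S => (μ g.1).toReal) (fun g => g.1 ∈ A) := by
  rw [PMF.toOuterMeasure_apply_fintype, ENNReal.toReal_sum (fun T _ => by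
    by_cases hT : T ∈ A
    · rw [Set.indicator_of_mem hT]; exact μ.apply_ne_top T
    · rw [Set.indicator_of_notMem hT]; exact ENNReal.zero_ne_top)]
  unfold P1 E1
  rw [sum_sub S _ (fun g hg => by
    by_cases hT : g ∈ A
    · rw [Set.indicator_of_mem hT, hS g hg]; rfl
    · rw [Set.indicator_of_notMem hT]; rfl)]
  refine Finset.sum_congr rfl fun g _ => ?_
  change _ = (μ g.1).toReal * (if g.1 ∈ A then 1 else 0)
  by_cases hg : g.1 ∈ A
  · rw [Set.indicator_of_mem hg, if_pos hg, mul_one]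
  · rw [Set.indicator_of_notMem hg, if_neg hg, mul_zero]; rfl

theorem isLaw_sub {V : Type*} [Fintype V] (S : Set (SimpleGraph V)) (μ : PMF (SimpleGraph V))
    (hS : ∀ T, T ∉ S → μ T = 0) : IsLaw (fun g : S => (μ g.1).toReal) := by
  refine ⟨fun g => ENNReal.toReal_nonneg, ?_⟩
  rw [← sum_sub S (fun T => (μ T).toReal) (fun g hg => by rw [hS g hg]; rfl)]
  have h1 := μ.tsum_coe
  rw [tsum_fintype] at h1
  rw [← ENNReal.toReal_sum (fun T _ => μ.apply_ne_top T), h1, ENNReal.toReal_one]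

theorem final_bound {V : Type*} [Fintype V] (S : Set (SimpleGraph V)) (μ : PMF (SimpleGraph V))
    (hS : ∀ T, T ∉ S → μ T = 0) (hc : ∀ T ∈ S, T.Connected) {d : ℕ} (hd1 : 1 ≤ d)
    (hdn : d ≤ Fintype.card V) (hd : ∀ T ∈ S, ∀ v, (T.neighborSet v).ncard ≤ d) {θ : ℝ}
    (hθ0 : 0 ≤ θ) (hθ1 : θ ≤ 1)
    (hθ : ∀ u v, (μ.toOuterMeasure {T | T.Adj u v}).toReal ≤ θ)
    {Ω : Type*} [MeasurableSpace Ω] {P : Measure Ω} (G : ℕ → Ω → SimpleGraph V)
    (hG : ∀ (N : ℕ) (T : Fin N → SimpleGraph V), P {ω | ∀ i : Fin N, G i ω = T i} = ∏ i, μ (T i))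
    (s : V) {N : ℕ}
    (hN : 60000 * (√d * Fintype.card V + θ * (Fintype.card V : ℝ) ^ 2) ≤ N) :
    P {ω | ¬ ∃ v : ℕ → V, v 0 = s ∧
      (∀ i < N, v (i + 1) = v i ∨ (G i ω).Adj (v i) (v (i + 1))) ∧ ∀ y, ∃ i ≤ N, v i = y} ≤
      ENNReal.ofReal (Real.exp (-√(Fintype.card V))) := by
  have hlaw := isLaw_sub S μ hS
  have key := main_pf (G := fun g : S => g.1) hlaw (fun g => hc g.1 g.2) hd1 hdn
    (fun g w => by
      refine le_trans (le_of_eq ?_) (hd g.1 g.2 w)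
      rw [← Set.ncard_coe_finset]
      congr 1
      ext v
      simp) hθ0 hθ1 (fun v w => by
      have h1 := hθ v w
      rw [P1_eq S μ hS] at h1
      exact h1) s hN
  refine (measure_mono ?_).trans ((prob_le S μ hS G hG N s (univ.erase s)).trans
    (ENNReal.ofReal_le_ofReal key))
  intro ω hω hv
  refine hω ?_
  obtain ⟨v, h0, h1, h2⟩ := walk_of_vis N (fun i => G i ω) s _ hv
  refine ⟨v, h0, h1, fun y => ?_⟩
  by_cases hy : y = s
  · exact ⟨0, Nat.zero_le _, by rw [h0, hy]⟩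
  · exact h2 y (Finset.mem_erase.2 ⟨hy, Finset.mem_univ y⟩)

end Pool.Agent.RST42
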