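import Pool.Agent.RST42.Walk

/-! Preparations for the key lemma. -/

namespace Pool.Agent.RST42

open Finset Classical

section seq

/-- second half of a sequence of small numbers -/
theorem half_sum {m : ℕ} (b : Fin m → ℝ) {θ : ℝ} (h0 : ∀ i, 0 ≤ b i) (h1 : ∀ i, b i ≤ θ)
    (hθ : 0 ≤ θ) :
    (∑ i, b i) / 2 - θ ≤
      ∑ i, if (∑ i, b i) / 2 ≤ ∑ j ∈ univ.filter (fun j => j < i), b j then b i else 0 := by
  set S := ∑ i, b i with hS
  set A : Fin m → ℝ := fun i => ∑ j ∈ univ.filter (fun j => j < i), b j with hA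
  have e : S = (∑ i, if S / 2 ≤ A i then b i else 0) + ∑ i ∈ univ.filter (fun i => A i < S / 2), b i := by
    rw [Finset.sum_filter, ← Finset.sum_add_distrib, hS]
    refine Finset.sum_congr rfl fun i _ => ?_
    by_cases h : S / 2 ≤ A i
    · rw [if_pos h, if_neg (not_lt.2 h), add_zero]
    · rw [if_neg h, if_pos (not_le.1 h), zero_add]
  have key : ∑ i ∈ univ.filter (fun i => A i < S / 2), b i ≤ S / 2 + θ := by
    by_cases hne : (univ.filter (fun i => A i < S / 2)).Nonempty
    · set I := univ.filter (fun i => A i < S / 2) with hI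
      have hmem := Finset.max'_mem I hne
      set i' := I.max' hne with hi'
      have h3 : A i' < S / 2 := by
        rw [hI, Finset.mem_filter] at hmem; exact hmem.2
      have hsub : I ⊆ insert i' (univ.filter (fun j => j < i')) := by
        intro j hj
        have := Finset.le_max' I j hj
        rcases this.eq_or_lt with h | h
        · rw [Finset.mem_insert]; left; exact h
        · rw [Finset.mem_insert]; right; simpa using h
      calc ∑ i ∈ I, b i ≤ ∑ i ∈ insert i' (univ.filter (fun j => j < i')), b i :=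
            Finset.sum_le_sum_of_subset_of_nonneg hsub fun i _ _ => h0 i
        _ = b i' + A i' := by rw [Finset.sum_insert (by simp)]
        _ ≤ S / 2 + θ := by linarith [h1 i']
    · rw [Finset.not_nonempty_iff_eq_empty] at hne
      rw [hne, Finset.sum_empty]
      have : 0 ≤ S := Finset.sum_nonneg fun i _ => h0 i
      linarith
  linarith

end seq

variable {Γ : Type*} [Fintype Γ] {p : Γ → ℝ}

/-- probability of an event in one snapshot -/
noncomputable def P1 (p : Γ → ℝ) (A : Γ → Prop) : ℝ := E1 p (fun g => if A g then 1 else 0)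

theorem P1_nonneg (h : IsLaw p) (A : Γ → Prop) : 0 ≤ P1 p A :=
  E1_nonneg h fun g => by split_ifs <;> norm_num

theorem P1_mono (h : IsLaw p) {A B : Γ → Prop} (hAB : ∀ g, A g → B g) : P1 p A ≤ P1 p B :=
  E1_mono h fun g => by
    by_cases hA : A g
    · rw [if_pos hA, if_pos (hAB g hA)]
    · rw [if_neg hA]; split_ifs <;> norm_num

theorem P1_le_one (h : IsLaw p) (A : Γ → Prop) : P1 p A ≤ 1 := by
  rw [← E1_const h 1]
  exact E1_mono h fun g => by split_ifs <;> norm_num

theorem Ex_none (h : IsLaw p) (T : ℕ) (A : Γ → Prop) :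
    Ex p T (fun l => if ∃ g ∈ l, A g then 0 else 1) = (1 - P1 p A) ^ T := by
  induction T with
  | zero => simp [Ex_zero]
  | succ T ih =>
    rw [Ex_succ]
    have e : (fun g => Ex p T (fun l => if ∃ g' ∈ g :: l, A g' then (0 : ℝ) else 1)) =
        fun g => (1 - P1 p A) ^ T * (if A g then 0 else 1) := by
      funext g
      by_cases hg : A g
      · have : (fun l : List Γ => if ∃ g' ∈ g :: l, A g' then (0 : ℝ) else 1) = fun _ => 0 := by
          funext l; rw [if_pos ⟨g, by simp, hg⟩]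
        rw [this, Ex_const h, if_pos hg, mul_zero]
      · have : (fun l : List Γ => if ∃ g' ∈ g :: l, A g' then (0 : ℝ) else 1) =
            fun l => if ∃ g' ∈ l, A g' then 0 else 1 := by
          funext l
          simp only [List.mem_cons, exists_eq_or_imp, hg, false_or]
        rw [this, ih, if_neg hg, mul_one]
    rw [e, E1_smul, pow_succ]
    congr 1
    have := E1_indicator_compl h A
    unfold P1
    rw [this]
    ring

/-- an event of probability at least `1/T` happens within `T` snapshots -/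
theorem Ex_some (h : IsLaw p) {T : ℕ} (hT : 1 ≤ T) {A : Γ → Prop} (hA : 1 / (T : ℝ) ≤ P1 p A) :
    1 / 2 ≤ Ex p T (fun l => if ∃ g ∈ l, A g then 1 else 0) := by
  have hTpos : (0 : ℝ) < T := by exact_mod_cast hT
  have h1 : Ex p T (fun l => if ∃ g ∈ l, A g then (1 : ℝ) else 0) +
      Ex p T (fun l => if ∃ g ∈ l, A g then (0 : ℝ) else 1) = 1 := by
    rw [← Ex_add, ← Ex_const h T 1]
    refine Ex_congr fun l _ => ?_
    split_ifs <;> simp [Ex_const h]
  rw [Ex_none h] at h1
  have h2 : (1 - P1 p A) ^ T ≤ 1 / 2 := by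
    have h3 : (1 - P1 p A) ^ T ≤ (1 - 1 / (T : ℝ)) ^ T :=
      pow_le_pow_left₀ (by linarith [P1_le_one h A]) (by linarith) T
    have h4 : (1 - 1 / (T : ℝ)) ^ T ≤ Real.exp (-1) :=
      Real.one_sub_div_pow_le_exp_neg (by exact_mod_cast hT)
    have h5 : Real.exp (-1) ≤ 1 / 2 := by
      rw [Real.exp_neg, ← one_div]
      exact one_div_le_one_div_of_le (by norm_num) (by linarith [Real.add_one_le_exp (1 : ℝ)])
    linarith
  linarith

theorem E1_ls (f : Γ → Γ → ℝ) (l : List Γ) :
    E1 p (fun g' => ls (fun g => f g g') l) = ls (fun g => E1 p (f g)) l := by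
  induction l with
  | nil => simp [ls, E1]
  | cons g l ih =>
    simp_rw [ls_cons]
    rw [E1_add, ih]

theorem E1_swap (f : Γ → Γ → ℝ) :
    E1 p (fun g => E1 p (fun g' => f g g')) = E1 p (fun g' => E1 p (fun g => f g g')) := by
  unfold E1
  simp_rw [Finset.mul_sum]
  rw [Finset.sum_comm]
  refine Finset.sum_congr rfl fun g _ => Finset.sum_congr rfl fun g' _ => by ring

/-- second moment method for the number of coincidences of two phases -/
theorem second_moment (h : IsLaw p) {T : ℕ} (hT : 1 ≤ T) {f : Γ → Γ → ℝ}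
    (hf : ∀ g g', f g g' = 0 ∨ f g g' = 1) {β H : ℝ} (hβ : β = E1 p (fun g => E1 p (f g)))
    (hκ : ∀ g, E1 p (f g) ≤ 1 / T) (hH : ∀ g', E1 p (fun g => f g g') ≤ H)
    (h1 : 2 ≤ (T : ℝ) ^ 2 * β) (h2 : H ≤ T * β) :
    1 / 3 ≤ Ex p T (fun l => Ex p T (fun l' =>
      if ∃ g ∈ l, ∃ g' ∈ l', f g g' = 1 then 1 else 0)) := by
  have hTpos : (0 : ℝ) < T := by exact_mod_cast hT
  have hT1 : (1 : ℝ) ≤ T := by exact_mod_cast hT
  have f0 : ∀ g g', 0 ≤ f g g' := fun g g' => by rcases hf g g' with e | e <;> rw [e] <;> norm_num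
  set X : List Γ → List Γ → ℝ := fun l l' => ls (fun g' => ls (fun g => f g g') l) l' with hX
  set μ : ℝ := (T : ℝ) ^ 2 * β with hμ
  have hμpos : 0 < μ := by linarith
  have hβpos : 0 < β := by
    by_contra hc
    have : μ ≤ 0 := mul_nonpos_of_nonneg_of_nonpos (by positivity) (not_lt.1 hc)
    linarith
  have m1 : Ex p T (fun l => Ex p T (fun l' => X l l')) = μ := by
    have e1 : (fun l => Ex p T (fun l' => X l l')) =
        fun l => (T : ℝ) * ls (fun g => E1 p (f g)) l := by
      funext l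
      rw [← E1_ls]
      exact Ex_ls h T (fun g' => ls (fun g => f g g') l)
    rw [e1, Ex_smul, show Ex p T (fun l => ls (fun g => E1 p (f g)) l) =
      T * E1 p (fun g => E1 p (f g)) from Ex_ls h T _, ← hβ, hμ]
    ring
  have m2 : Ex p T (fun l => Ex p T (fun l' => X l l' ^ 2)) ≤ 3 * μ ^ 2 := by
    have e1 : (fun l => Ex p T (fun l' => X l l' ^ 2)) =
        fun l => (T : ℝ) * E1 p (fun g' => ls (fun g => f g g') l ^ 2) +
          (T * (T - 1)) * (ls (fun g => E1 p (f g)) l) ^ 2 := by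
      funext l
      rw [← E1_ls]
      exact Ex_ls_sq h T (fun g' => ls (fun g => f g g') l)
    rw [e1, Ex_add, Ex_smul, Ex_smul]
    rw [Ex_E1 T (fun g' l => ls (fun g => f g g') l ^ 2)]
    have e2 : (fun g' => Ex p T (fun l => ls (fun g => f g g') l ^ 2)) =
        fun g' => T * E1 p (fun g => f g g') + (T * (T - 1)) * E1 p (fun g => f g g') ^ 2 := by
      funext g'
      rw [Ex_ls_sq h T (fun g => f g g')]
      congr 3
      funext g
      rcases hf g g' with e | e <;> rw [e] <;> norm_num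
    rw [e2, show Ex p T (fun l => ls (fun g => E1 p (f g)) l ^ 2) = _ from
      Ex_ls_sq h T (fun g => E1 p (f g)), E1_add, E1_smul, E1_smul, ← E1_swap, ← hβ]
    have b1 : E1 p (fun g' => E1 p (fun g => f g g') ^ 2) ≤ H * β := by
      rw [hβ, E1_swap, ← E1_smul]
      refine E1_mono h fun g' => ?_
      rw [sq]
      exact mul_le_mul_of_nonneg_right (hH g') (E1_nonneg h fun g => f0 g g')
    have b2 : E1 p (fun g => E1 p (f g) ^ 2) ≤ 1 / T * β := by
      rw [hβ, ← E1_smul]
      refine E1_mono h fun g => ?_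
      rw [sq]
      exact mul_le_mul_of_nonneg_right (hκ g) (E1_nonneg h fun g' => f0 g g')
    have b3 : H * β ≤ T * β * β := mul_le_mul_of_nonneg_right h2 hβpos.le
    have t0 : (0 : ℝ) ≤ T * (T - 1) := by
      have : (0 : ℝ) ≤ T - 1 := by linarith
      positivity
    have c1 : (T : ℝ) * (T * β + T * (T - 1) * E1 p (fun g' => E1 p (fun g => f g g') ^ 2)) ≤
        T * (T * β + T * (T - 1) * (T * β * β)) := by
      refine mul_le_mul_of_nonneg_left ?_ hTpos.le
      have := mul_le_mul_of_nonneg_left (b1.trans b3) t0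
      linarith
    have c2 : (T : ℝ) * (T - 1) * (T * E1 p (fun g => E1 p (f g) ^ 2) + T * (T - 1) * β ^ 2) ≤
        T * (T - 1) * (T * (1 / T * β) + T * (T - 1) * β ^ 2) := by
      refine mul_le_mul_of_nonneg_left ?_ t0
      have := mul_le_mul_of_nonneg_left b2 hTpos.le
      linarith
    have c3 : (T : ℝ) * (1 / T * β) = β := by field_simp
    rw [c3] at c2
    have hb2 : 0 ≤ β ^ 2 := sq_nonneg β
    have d1 : (T : ℝ) * (T * β + T * (T - 1) * (T * β * β)) ≤ μ + μ ^ 2 := by
      rw [hμ]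
      nlinarith [mul_nonneg (mul_nonneg (mul_nonneg hTpos.le hTpos.le) hTpos.le) hb2]
    have d2 : (T : ℝ) * (T - 1) * (β + T * (T - 1) * β ^ 2) ≤ μ + μ ^ 2 := by
      rw [hμ]
      have k1 : (T : ℝ) * (T - 1) ≤ T ^ 2 := by nlinarith
      have k2 : β + (T : ℝ) * (T - 1) * β ^ 2 ≤ β + T ^ 2 * β ^ 2 := by
        have := mul_le_mul_of_nonneg_right k1 hb2
        linarith
      have k3 : 0 ≤ β + (T : ℝ) * (T - 1) * β ^ 2 := by positivity
      calc (T : ℝ) * (T - 1) * (β + T * (T - 1) * β ^ 2)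
          ≤ T ^ 2 * (β + T ^ 2 * β ^ 2) := mul_le_mul k1 k2 k3 (by positivity)
        _ = _ := by ring
    have d3 : 2 * μ ≤ μ ^ 2 := by nlinarith
    linarith
  have key : ∀ l l' : List Γ, 2 * (1 / (3 * μ)) * X l l' - (1 / (3 * μ)) ^ 2 * X l l' ^ 2 ≤
      if ∃ g ∈ l, ∃ g' ∈ l', f g g' = 1 then 1 else 0 := by
    intro l l'
    split_ifs with hc
    · nlinarith [sq_nonneg (1 - 1 / (3 * μ) * X l l')]
    · have : X l l' = 0 := by
        refine le_antisymm ?_ (ls_nonneg (fun g' => ls_nonneg (fun g => f0 g g') l) l')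
        by_contra hpos
        obtain ⟨g', h3, h4⟩ := ls_pos_exists l' (not_le.1 hpos)
        obtain ⟨g, h5, h6⟩ := ls_pos_exists l h4
        refine hc ⟨g, h5, g', h3, ?_⟩
        rcases hf g g' with e | e
        · rw [e] at h6; exact absurd h6 (lt_irrefl _)
        · exact e
      rw [this]; simp
  have h3 : Ex p T (fun l => Ex p T (fun l' =>
      2 * (1 / (3 * μ)) * X l l' - (1 / (3 * μ)) ^ 2 * X l l' ^ 2)) ≤
      Ex p T (fun l => Ex p T (fun l' => if ∃ g ∈ l, ∃ g' ∈ l', f g g' = 1 then 1 else 0)) :=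
    Ex_mono h fun l _ => Ex_mono h fun l' _ => key l l'
  refine le_trans ?_ h3
  have e3 : Ex p T (fun l => Ex p T (fun l' =>
      2 * (1 / (3 * μ)) * X l l' - (1 / (3 * μ)) ^ 2 * X l l' ^ 2)) =
      2 * (1 / (3 * μ)) * μ - (1 / (3 * μ)) ^ 2 * Ex p T (fun l => Ex p T (fun l' => X l l' ^ 2)) := by
    have e4 : (fun l => Ex p T (fun l' =>
        2 * (1 / (3 * μ)) * X l l' - (1 / (3 * μ)) ^ 2 * X l l' ^ 2)) = fun l =>
        2 * (1 / (3 * μ)) * Ex p T (fun l' => X l l') +
          (-(1 / (3 * μ)) ^ 2) * Ex p T (fun l' => X l l' ^ 2) := by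
      funext l
      rw [← Ex_smul, ← Ex_smul, ← Ex_add]
      congr 1
      funext l'
      ring
    rw [e4, Ex_add, Ex_smul, Ex_smul, m1]
    ring
  rw [e3]
  have h4 : (1 / (3 * μ)) ^ 2 * Ex p T (fun l => Ex p T (fun l' => X l l' ^ 2)) ≤
      (1 / (3 * μ)) ^ 2 * (3 * μ ^ 2) := mul_le_mul_of_nonneg_left m2 (by positivity)
  have h5 : 2 * (1 / (3 * μ)) * μ - (1 / (3 * μ)) ^ 2 * (3 * μ ^ 2) = 1 / 3 := by
    field_simp
    norm_num
  linarith

end Pool.Agent.RST42
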