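import Pool.Agent.RST42.KL1

/-! The key lemma: among any `m` vertices there is one from which the later ones are easy to reach. -/

namespace Pool.Agent.RST42

open Finset Classical

variable {V Γ : Type*} [Fintype Γ] [Fintype V] {p : Γ → ℝ} {G : Γ → SimpleGraph V}

theorem E1_fiber (ψ : Γ → V) (F : V → ℝ) :
    E1 p (fun g => F (ψ g)) = ∑ w, P1 p (fun g => ψ g = w) * F w := by
  have e : ∀ g, F (ψ g) = ∑ w, F w * (if ψ g = w then 1 else 0) := by
    intro g; simp
  simp_rw [e]
  rw [E1_sum]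
  refine Finset.sum_congr rfl fun w _ => ?_
  rw [E1_smul, mul_comm]
  rfl

theorem P1_compl (h : IsLaw p) (A : Γ → Prop) : P1 p A + P1 p (fun g => ¬ A g) = 1 := by
  unfold P1
  rw [← E1_add]
  refine (congrArg (E1 p) (funext fun g => ?_)).trans (E1_const h 1)
  by_cases hg : A g <;> simp [hg]

/-- the vertex `w` is the choice of a later vertex of the list -/
def Later (φ : Γ → V → V) {m : ℕ} (Y : Fin m → V) (g : Γ) (j : Fin m) (w : V) : Prop :=
  ∃ i, j < i ∧ φ g (Y i) = w

/-- `w` is rarely the choice of a later vertex -/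
def Lo (p : Γ → ℝ) (φ : Γ → V → V) {m : ℕ} (Y : Fin m → V) (T : ℕ) (j : Fin m) (w : V) : Prop :=
  P1 p (fun g => Later φ Y g j w) < 1 / T

/-- weight of `j` at `w` -/
noncomputable def bb (p : Γ → ℝ) (φ : Γ → V → V) {m : ℕ} (Y : Fin m → V) (T : ℕ) (j : Fin m)
    (w : V) : ℝ :=
  if Lo p φ Y T j w then P1 p (fun g => φ g (Y j) = w) else 0

variable {φ : Γ → V → V} {m : ℕ} {Y : Fin m → V} {T : ℕ}

theorem bb_nonneg (h : IsLaw p) (j : Fin m) (w : V) : 0 ≤ bb p φ Y T j w := by
  unfold bb
  split_ifs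
  · exact P1_nonneg h _
  · exact le_rfl

theorem bb_le {θ : ℝ} (hθ0 : 0 ≤ θ) (hθ : ∀ v w, P1 p (fun g => φ g v = w) ≤ θ)
    (j : Fin m) (w : V) : bb p φ Y T j w ≤ θ := by
  unfold bb
  split_ifs
  · exact hθ _ _
  · exact hθ0

theorem a_lt (h : IsLaw p) (hadj : ∀ g v, (G g).Adj v (φ g v)) (hT : 1 ≤ T) (j : Fin m)
    (hq : q p G (2 * T) (Y j) ((univ.filter (fun i => j < i)).image Y) < 1 / 8) :
    P1 p (fun g => ¬ Lo p φ Y T j (φ g (Y j))) < 1 / 4 := by
  have key : 1 / 2 * P1 p (fun g => ¬ Lo p φ Y T j (φ g (Y j))) ≤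
      q p G (T + 1) (Y j) ((univ.filter (fun i => j < i)).image Y) := by
    unfold q P1
    rw [Ex_succ, ← E1_smul]
    refine E1_mono h fun g => ?_
    by_cases hg : Lo p φ Y T j (φ g (Y j))
    · rw [if_neg (not_not.2 hg), mul_zero]
      exact Ex_nonneg h fun l _ => by split_ifs <;> norm_num
    · rw [if_pos hg, mul_one]
      refine (Ex_some h hT (A := fun g' => Later φ Y g' j (φ g (Y j))) (not_lt.1 hg)).trans ?_
      refine Ex_mono h fun l _ => ?_
      split_ifs with h1 h2 h2
      · exact le_rfl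
      · obtain ⟨g', hg', i, hi, e⟩ := h1
        refine absurd ⟨Y i, Finset.mem_image_of_mem Y (by simpa using hi), φ g (Y j),
          Or.inr (hadj g (Y j)), R_mem hg' ?_⟩ h2
        rw [← e]
        exact (hadj g' (Y i)).symm
      · norm_num
      · exact le_rfl
  have := q_mono_time h (G := G) (show T + 1 ≤ 2 * T by omega) (Y j)
    ((univ.filter (fun i => j < i)).image Y)
  linarith

/-- total weight at `w` -/
noncomputable def cc (p : Γ → ℝ) (φ : Γ → V → V) {m : ℕ} (Y : Fin m → V) (T : ℕ) (w : V) : ℝ :=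
  ∑ j, bb p φ Y T j w

theorem sum_cc (h : IsLaw p) (hadj : ∀ g v, (G g).Adj v (φ g v)) (hT : 1 ≤ T)
    (hq : ∀ j, q p G (2 * T) (Y j) ((univ.filter (fun i => j < i)).image Y) < 1 / 8) :
    3 / 4 * (m : ℝ) ≤ ∑ w, cc p φ Y T w := by
  unfold cc
  rw [Finset.sum_comm]
  have : ∀ j : Fin m, 3 / 4 ≤ ∑ w, bb p φ Y T j w := by
    intro j
    have e : ∑ w, bb p φ Y T j w = P1 p (fun g => Lo p φ Y T j (φ g (Y j))) := by
      have := E1_fiber (p := p) (fun g => φ g (Y j)) (fun w => if Lo p φ Y T j w then 1 else 0)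
      unfold P1 at this ⊢
      rw [this]
      refine Finset.sum_congr rfl fun w _ => ?_
      unfold bb P1
      split_ifs <;> simp
    rw [e]
    have h1 := a_lt h hadj hT j (hq j)
    have h2 := P1_compl h (fun g => Lo p φ Y T j (φ g (Y j)))
    linarith
  calc 3 / 4 * (m : ℝ) = ∑ _j : Fin m, (3 / 4 : ℝ) := by simp; ring
    _ ≤ _ := Finset.sum_le_sum fun j _ => this j

/-- `i` is a good child at the snapshot `g` -/
def Good (p : Γ → ℝ) (φ : Γ → V → V) {m : ℕ} (Y : Fin m → V) (T : ℕ) (K : ℝ) (g : Γ)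
    (i : Fin m) : Prop :=
  Lo p φ Y T i (φ g (Y i)) ∧ K ≤ cc p φ Y T (φ g (Y i)) ∧
    cc p φ Y T (φ g (Y i)) / 2 ≤ ∑ j ∈ univ.filter (fun j => j < i), bb p φ Y T j (φ g (Y i))

theorem sum_good (h : IsLaw p) (hadj : ∀ g v, (G g).Adj v (φ g v)) (hT : 1 ≤ T)
    (hq : ∀ j, q p G (2 * T) (Y j) ((univ.filter (fun i => j < i)).image Y) < 1 / 8)
    {θ : ℝ} (hθ0 : 0 ≤ θ) (hθ : ∀ v w, P1 p (fun g => φ g v = w) ≤ θ) {K : ℝ} (hK : 0 ≤ K)
    (hKm : (Fintype.card V : ℝ) * K ≤ m / 4) (h1 : 8 * Fintype.card V * θ ≤ m) :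
    (m : ℝ) / 8 ≤ E1 p (fun g => ((univ.filter (fun i => Good p φ Y T K g i)).card : ℝ)) := by
  have e1 : E1 p (fun g => ((univ.filter (fun i => Good p φ Y T K g i)).card : ℝ)) =
      ∑ w, ∑ i, (if K ≤ cc p φ Y T w then
        (if cc p φ Y T w / 2 ≤ ∑ j ∈ univ.filter (fun j => j < i), bb p φ Y T j w
          then bb p φ Y T i w else 0) else 0) := by
    have e2 : (fun g => ((univ.filter (fun i => Good p φ Y T K g i)).card : ℝ)) =
        fun g => ∑ i, (if Good p φ Y T K g i then (1 : ℝ) else 0) := by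
      funext g
      rw [Finset.card_filter]
      push_cast
      rfl
    rw [e2, E1_sum, Finset.sum_comm]
    refine Finset.sum_congr rfl fun i _ => ?_
    have := E1_fiber (p := p) (fun g => φ g (Y i)) (fun w => if (Lo p φ Y T i w ∧
      K ≤ cc p φ Y T w ∧ cc p φ Y T w / 2 ≤ ∑ j ∈ univ.filter (fun j => j < i), bb p φ Y T j w)
      then (1 : ℝ) else 0)
    have e6 : (fun g => if Good p φ Y T K g i then (1 : ℝ) else 0) = fun g =>
        if (Lo p φ Y T i (φ g (Y i)) ∧ K ≤ cc p φ Y T (φ g (Y i)) ∧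
          cc p φ Y T (φ g (Y i)) / 2 ≤
            ∑ j ∈ univ.filter (fun j => j < i), bb p φ Y T j (φ g (Y i)))
        then (1 : ℝ) else 0 := by
      funext g
      exact if_congr Iff.rfl rfl rfl
    rw [e6]
    refine this.trans (Finset.sum_congr rfl fun w _ => ?_)
    unfold bb
    by_cases a1 : Lo p φ Y T i w
    · by_cases a2 : K ≤ cc p φ Y T w
      · by_cases a3 : cc p φ Y T w / 2 ≤ ∑ j ∈ univ.filter (fun j => j < i),
          (if Lo p φ Y T j w then P1 p (fun g => φ g (Y j) = w) else 0)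
        · rw [if_pos ⟨a1, a2, a3⟩, if_pos a2, if_pos a3, if_pos a1, mul_one]
        · rw [if_neg (fun hh => a3 hh.2.2), if_pos a2, if_neg a3, mul_zero]
      · rw [if_neg (fun hh => a2 hh.2.1), if_neg a2, mul_zero]
    · rw [if_neg (fun hh => a1 hh.1), mul_zero, if_neg a1]
      split_ifs <;> rfl
  rw [e1]
  have e3 : ∀ w, (cc p φ Y T w - K) / 2 - θ ≤ ∑ i, (if K ≤ cc p φ Y T w then
        (if cc p φ Y T w / 2 ≤ ∑ j ∈ univ.filter (fun j => j < i), bb p φ Y T j w
          then bb p φ Y T i w else 0) else 0) := by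
    intro w
    by_cases a2 : K ≤ cc p φ Y T w
    · simp only [if_pos a2]
      have := half_sum (fun i => bb p φ Y T i w) (fun i => bb_nonneg h i w)
        (fun i => bb_le hθ0 hθ i w) hθ0
      unfold cc at a2 ⊢
      linarith
    · simp only [if_neg a2, Finset.sum_const_zero]
      linarith [not_le.1 a2]
  refine le_trans ?_ (Finset.sum_le_sum fun w _ => e3 w)
  have e4 : ∑ w, ((cc p φ Y T w - K) / 2 - θ) =
      ((∑ w, cc p φ Y T w) - Fintype.card V * K) / 2 - Fintype.card V * θ := by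
    rw [Finset.sum_sub_distrib, ← Finset.sum_div, Finset.sum_sub_distrib]
    simp [Finset.card_univ]
  rw [e4]
  have := sum_cc h hadj hT hq
  linarith

theorem P_rich (h : IsLaw p) (hm : 0 < m) {K : ℝ}
    (hg : (m : ℝ) / 8 ≤ E1 p (fun g => ((univ.filter (fun i => Good p φ Y T K g i)).card : ℝ))) :
    1 / 16 ≤ P1 p (fun g => (m : ℝ) / 16 ≤ ((univ.filter (fun i => Good p φ Y T K g i)).card : ℝ)) := by
  have hm' : (0 : ℝ) < m := by exact_mod_cast hm
  have h1 : E1 p (fun g => ((univ.filter (fun i => Good p φ Y T K g i)).card : ℝ)) ≤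
      E1 p (fun g => (m : ℝ) * (if (m : ℝ) / 16 ≤
        ((univ.filter (fun i => Good p φ Y T K g i)).card : ℝ) then 1 else 0) + m / 16) := by
    refine E1_mono h fun g => ?_
    split_ifs with hc
    · have : ((univ.filter (fun i => Good p φ Y T K g i)).card : ℝ) ≤ m := by
        have := Finset.card_le_univ (univ.filter (fun i => Good p φ Y T K g i))
        rw [Fintype.card_fin] at this
        exact_mod_cast this
      linarith
    · linarith [not_le.1 hc]
  rw [E1_add, E1_smul, E1_const h] at h1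
  have h2 : (m : ℝ) / 16 ≤ m * P1 p (fun g => (m : ℝ) / 16 ≤
      ((univ.filter (fun i => Good p φ Y T K g i)).card : ℝ)) := by
    unfold P1
    linarith
  have h3 : (m : ℝ) * (1 / 16) ≤ m * P1 p (fun g => (m : ℝ) / 16 ≤
      ((univ.filter (fun i => Good p φ Y T K g i)).card : ℝ)) := by linarith
  exact le_of_mul_le_mul_left h3 hm'

/-- the key lemma -/
theorem key_lemma (h : IsLaw p) (hadj : ∀ g v, (G g).Adj v (φ g v)) {d : ℕ} (hd1 : 1 ≤ d)
    (hd : ∀ g w, (univ.filter (fun v => φ g v = w)).card ≤ d) {θ : ℝ} (hθ0 : 0 ≤ θ)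
    (hθ : ∀ v w, P1 p (fun g => φ g v = w) ≤ θ) (hY : Function.Injective Y) (hT : 1 ≤ T)
    (hq : ∀ j, q p G (2 * T) (Y j) ((univ.filter (fun i => j < i)).image Y) < 1 / 8)
    (hm : 0 < m) (h1 : 8 * Fintype.card V * θ ≤ m) (h2 : 128 * θ * Fintype.card V ≤ T)
    (h3 : 4096 * (d : ℝ) * Fintype.card V ≤ (T : ℝ) ^ 2 * m) : False := by
  have hm' : (0 : ℝ) < m := by exact_mod_cast hm
  have hd' : (1 : ℝ) ≤ d := by exact_mod_cast hd1
  have : Nonempty (Fin m) := ⟨⟨0, hm⟩⟩
  have hn : 0 < Fintype.card V := Fintype.card_pos_iff.2 ⟨Y ⟨0, hm⟩⟩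
  have hn' : (0 : ℝ) < Fintype.card V := by exact_mod_cast hn
  have hTpos : (0 : ℝ) < T := by exact_mod_cast hT
  set n : ℝ := (Fintype.card V : ℝ) with hndef
  set K : ℝ := m / (4 * n) with hKdef
  have hK0 : 0 ≤ K := by positivity
  have hKm : n * K ≤ m / 4 := by rw [hKdef]; apply le_of_eq; field_simp
  have hrich := P_rich (p := p) (φ := φ) (Y := Y) (T := T) h hm
    (sum_good h hadj hT hq hθ0 hθ hK0 hKm h1)
  set rich : Γ → Prop := fun g => (m : ℝ) / 16 ≤
    ((univ.filter (fun i => Good p φ Y T K g i)).card : ℝ) with hrichdef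
  set hh : ℕ := ⌈(m : ℝ) / (16 * d)⌉₊ with hhdef
  have hhpos : (m : ℝ) / (16 * d) ≤ hh := Nat.le_ceil _
  have hh0 : (0 : ℝ) < hh := lt_of_lt_of_le (by positivity) hhpos
  have hex : ∀ g, ∃ S : Finset V, (rich g → S.card = hh) ∧ (¬ rich g → S = ∅) ∧
      ∀ w ∈ S, ∃ i, Good p φ Y T K g i ∧ φ g (Y i) = w := by
    intro g
    by_cases hg : rich g
    · set gs := univ.filter (fun i => Good p φ Y T K g i) with hgs
      have hc : gs.card ≤ d * (gs.image (fun i => φ g (Y i))).card := by
        refine Finset.card_le_mul_card_image gs d fun w _ => ?_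
        refine le_trans ?_ (hd g w)
        refine Finset.card_le_card_of_injOn Y (fun i hi => ?_) (hY.injOn)
        simp only [Finset.coe_filter, Finset.mem_filter, Finset.mem_coe] at hi ⊢
        simpa using hi.2
      have hc' : (hh : ℕ) ≤ (gs.image (fun i => φ g (Y i))).card := by
        rw [hhdef]
        refine Nat.ceil_le.2 ?_
        have hc2 : (gs.card : ℝ) ≤ d * (gs.image (fun i => φ g (Y i))).card := by
          exact_mod_cast hc
        have hg' : (m : ℝ) / 16 ≤ (gs.card : ℝ) := hg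
        rw [div_le_iff₀ (by positivity)]
        nlinarith
      obtain ⟨S, hS1, hS2⟩ := Finset.exists_subset_card_eq hc'
      refine ⟨S, fun _ => hS2, fun hn => absurd hg hn, fun w hw => ?_⟩
      obtain ⟨i, hi, e⟩ := Finset.mem_image.1 (hS1 hw)
      exact ⟨i, (Finset.mem_filter.1 hi).2, e⟩
    · exact ⟨∅, fun hr => absurd hr hg, fun _ => rfl, fun w hw => absurd hw (Finset.notMem_empty w)⟩
  choose Sel hSel1 hSel2 hSel3 using hex
  choose! ic hic1 hic2 using hSel3
  set B : Γ → Fin m → Finset V := fun g' j => (Sel g').filter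
    (fun w => Lo p φ Y T j w ∧ j < ic g' w) with hB
  have hSelcard : ∀ g', (Sel g').card ≤ hh := by
    intro g'
    by_cases hg : rich g'
    · exact (hSel1 g' hg).le
    · rw [hSel2 g' hg]; simp
  -- the sum of the coincidence probabilities
  have hsum : (m : ℝ) * (hh / (128 * n)) ≤
      ∑ j : Fin m, E1 p (fun g => E1 p (fun g' => if φ g (Y j) ∈ B g' j then (1 : ℝ) else 0)) := by
    have e1 : ∀ j : Fin m, E1 p (fun g => E1 p (fun g' => if φ g (Y j) ∈ B g' j then (1 : ℝ) else 0))
        = E1 p (fun g' => ∑ w, P1 p (fun g => φ g (Y j) = w) * (if w ∈ B g' j then 1 else 0)) := by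
      intro j
      rw [E1_swap]
      congr 1
      funext g'
      exact E1_fiber (fun g => φ g (Y j)) (fun w => if w ∈ B g' j then 1 else 0)
    simp_rw [e1]
    rw [← E1_sum]
    have e2 : ∀ g', (hh : ℝ) * (K / 2) * (if rich g' then 1 else 0) ≤
        ∑ j, ∑ w, P1 p (fun g => φ g (Y j) = w) * (if w ∈ B g' j then 1 else 0) := by
      intro g'
      by_cases hg : rich g'
      · rw [if_pos hg, mul_one, Finset.sum_comm]
        have e3 : ∀ w ∈ Sel g', K / 2 ≤
            ∑ j, P1 p (fun g => φ g (Y j) = w) * (if w ∈ B g' j then 1 else 0) := by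
          intro w hw
          obtain ⟨g1, g2, g3⟩ := hic1 g' w hw
          rw [hic2 g' w hw] at g1 g2 g3
          have e4 : ∑ j ∈ univ.filter (fun j => j < ic g' w), bb p φ Y T j w =
              ∑ j, P1 p (fun g => φ g (Y j) = w) * (if w ∈ B g' j then 1 else 0) := by
            rw [Finset.sum_filter]
            refine Finset.sum_congr rfl fun j _ => ?_
            unfold bb
            by_cases c1 : j < ic g' w
            · by_cases c2 : Lo p φ Y T j w
              · rw [if_pos c1, if_pos c2, if_pos (Finset.mem_filter.2 ⟨hw, c2, c1⟩), mul_one]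
              · rw [if_pos c1, if_neg c2, if_neg (fun hc => c2 (Finset.mem_filter.1 hc).2.1),
                  mul_zero]
            · rw [if_neg c1, if_neg (fun hc => c1 (Finset.mem_filter.1 hc).2.2), mul_zero]
          rw [← e4]
          linarith
        calc (hh : ℝ) * (K / 2) = ∑ _w ∈ Sel g', K / 2 := by
              rw [Finset.sum_const, hSel1 g' hg, nsmul_eq_mul]
          _ ≤ ∑ w ∈ Sel g', ∑ j, P1 p (fun g => φ g (Y j) = w) * (if w ∈ B g' j then 1 else 0) :=
              Finset.sum_le_sum e3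
          _ ≤ _ := by
              refine Finset.sum_le_sum_of_subset_of_nonneg (Finset.subset_univ _) fun w _ _ => ?_
              exact Finset.sum_nonneg fun j _ => mul_nonneg (P1_nonneg h _) (by split_ifs <;> norm_num)
      · rw [if_neg hg, mul_zero]
        exact Finset.sum_nonneg fun j _ => Finset.sum_nonneg fun w _ =>
          mul_nonneg (P1_nonneg h _) (by split_ifs <;> norm_num)
    refine le_trans ?_ (E1_mono h e2)
    rw [E1_smul]
    have e5 : (hh : ℝ) * (K / 2) * (1 / 16) ≤ hh * (K / 2) * P1 p rich :=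
      mul_le_mul_of_nonneg_left hrich (by positivity)
    refine le_trans (le_of_eq ?_) e5
    rw [hKdef]
    field_simp
    norm_num
  obtain ⟨j, _, hj⟩ := Finset.exists_le_of_sum_le (s := (univ : Finset (Fin m)))
    (f := fun _ => (hh : ℝ) / (128 * n)) (g := fun j => E1 p (fun g => E1 p (fun g' =>
      if φ g (Y j) ∈ B g' j then (1 : ℝ) else 0))) Finset.univ_nonempty (by
      rw [Finset.sum_const, Finset.card_univ, Fintype.card_fin, nsmul_eq_mul]
      exact hsum)
  set f : Γ → Γ → ℝ := fun g g' => if φ g (Y j) ∈ B g' j then (1 : ℝ) else 0 with hf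
  have hκ : ∀ g, E1 p (f g) ≤ 1 / T := by
    intro g
    by_cases hl : Lo p φ Y T j (φ g (Y j))
    · refine le_trans ?_ hl.le
      refine E1_mono h fun g' => ?_
      simp only [hf]
      split_ifs with c1 c2 c2
      · exact le_rfl
      · obtain ⟨c3, _, c5⟩ := Finset.mem_filter.1 c1
        exact absurd ⟨ic g' (φ g (Y j)), c5, hic2 g' _ c3⟩ c2
      · norm_num
      · exact le_rfl
    · have : f g = fun _ => (0 : ℝ) := by
        funext g'
        simp only [hf]
        rw [if_neg (fun c => hl (Finset.mem_filter.1 c).2.1)]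
      rw [this, E1_const h]
      positivity
  have hH : ∀ g', E1 p (fun g => f g g') ≤ θ * hh := by
    intro g'
    have e := E1_fiber (p := p) (fun g => φ g (Y j)) (fun w => if w ∈ B g' j then (1 : ℝ) else 0)
    refine le_trans (le_of_eq e) ?_
    calc ∑ w, P1 p (fun g => φ g (Y j) = w) * (if w ∈ B g' j then (1 : ℝ) else 0)
        ≤ ∑ w, θ * (if w ∈ B g' j then (1 : ℝ) else 0) := by
          refine Finset.sum_le_sum fun w _ => mul_le_mul_of_nonneg_right (hθ _ _) ?_
          split_ifs <;> norm_num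
      _ = θ * (B g' j).card := by
          rw [← Finset.mul_sum]
          congr 1
          simp
      _ ≤ θ * hh := by
          refine mul_le_mul_of_nonneg_left ?_ hθ0
          exact_mod_cast (Finset.card_filter_le _ _).trans (hSelcard g')
  have hβ1 : 2 ≤ (T : ℝ) ^ 2 * E1 p (fun g => E1 p (f g)) := by
    refine le_trans ?_ (mul_le_mul_of_nonneg_left hj (by positivity))
    have c1 : (m : ℝ) / (16 * d) / (128 * n) ≤ hh / (128 * n) := by gcongr
    refine le_trans ?_ (mul_le_mul_of_nonneg_left c1 (by positivity))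
    rw [div_div, ← mul_div_assoc, le_div_iff₀ (by positivity)]
    nlinarith
  have hβ2 : θ * hh ≤ T * E1 p (fun g => E1 p (f g)) := by
    refine le_trans ?_ (mul_le_mul_of_nonneg_left hj hTpos.le)
    rw [← mul_div_assoc, le_div_iff₀ (by positivity)]
    nlinarith
  have hfin := second_moment h hT (f := f) (fun g g' => by
    simp only [hf]; split_ifs
    · right; rfl
    · left; rfl) rfl hκ hH hβ1 hβ2
  have hle : Ex p T (fun l => Ex p T (fun l' =>
      if ∃ g ∈ l, ∃ g' ∈ l', f g g' = 1 then (1 : ℝ) else 0)) ≤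
      q p G (2 * T) (Y j) ((univ.filter (fun i => j < i)).image Y) := by
    unfold q
    rw [two_mul, Ex_append]
    refine Ex_mono h fun l _ => Ex_mono h fun l' _ => ?_
    split_ifs with c1 c2 c2
    · exact le_rfl
    · obtain ⟨g, hg, g', hg', e⟩ := c1
      have c3 : φ g (Y j) ∈ B g' j := by
        by_contra c4
        simp only [hf, if_neg c4] at e
        exact absurd e (by norm_num)
      obtain ⟨c5, _, c7⟩ := Finset.mem_filter.1 c3
      refine absurd ⟨Y (ic g' (φ g (Y j))), Finset.mem_image_of_mem Y (by simpa using c7),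
        R_append (R_mem hg (hadj g (Y j))) (R_mem hg' ?_)⟩ c2
      have c8 := (hadj g' (Y (ic g' (φ g (Y j))))).symm
      rwa [hic2 g' _ c5] at c8
    · norm_num
    · exact le_rfl
  have := hq j
  linarith

end Pool.Agent.RST42
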