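import Pool.Agent.RST42.Main

/-! From lists of snapshots to independent random snapshots. -/

namespace Pool.Agent.RST42

open Finset Classical MeasureTheory ProbabilityTheory

/-- means as sums over tuples -/
theorem Ex_eq_sum {Γ : Type*} [Fintype Γ] (p : Γ → ℝ) (N : ℕ) (F : List Γ → ℝ) :
    Ex p N F = ∑ T : Fin N → Γ, (∏ i, p (T i)) * F (List.ofFn T) := by
  induction N generalizing F with
  | zero => simp [Ex_zero]
  | succ N ih =>
    rw [Ex]
    simp_rw [ih, Finset.mul_sum]
    rw [← (Fin.consEquiv (fun _ => Γ)).sum_comp, Fintype.sum_prod_type]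
    refine Finset.sum_congr rfl fun g _ => Finset.sum_congr rfl fun T _ => ?_
    rw [Fin.prod_univ_succ, List.ofFn_succ]
    simp [Fin.consEquiv, mul_assoc]

theorem sum_sub {Γ' : Type*} [Fintype Γ'] (S : Set Γ') (f : Γ' → ℝ) (hf : ∀ g ∉ S, f g = 0) :
    ∑ g, f g = ∑ g : S, f g := by
  rw [← Finset.sum_subtype (univ.filter (fun g => g ∈ S)) (by simp) f]
  rw [Finset.sum_filter_of_ne]
  intro g _ hg
  by_contra hc
  exact hg (hf g hc)

/-- restriction to a set carrying the law -/
theorem Ex_sub {Γ' : Type*} [Fintype Γ'] (S : Set Γ') (p' : Γ' → ℝ) (hp : ∀ g ∉ S, p' g = 0)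
    (N : ℕ) (F : List Γ' → ℝ) :
    Ex p' N F = Ex (fun g : S => p' g) N (fun l => F (l.map Subtype.val)) := by
  induction N generalizing F with
  | zero => rfl
  | succ N ih =>
    rw [Ex, Ex]
    simp_rw [ih]
    rw [sum_sub S _ (fun g hg => by rw [hp g hg, zero_mul])]
    rfl

theorem Vis_map {V : Type*} (S : Set (SimpleGraph V)) (l : List S) (x : V) (U : Finset V) :
    Vis (fun g : SimpleGraph V => g) (l.map Subtype.val) x U ↔ Vis (fun g : S => g.1) l x U := by
  induction l generalizing x U with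
  | nil => exact Iff.rfl
  | cons g l ih =>
    constructor
    · rintro ⟨z, hz, h⟩
      exact ⟨z, hz, (ih z _).1 h⟩
    · rintro ⟨z, hz, h⟩
      exact ⟨z, hz, (ih z _).2 h⟩

/-- a walk visiting everything, from `Vis` -/
theorem walk_of_vis {V : Type*} (N : ℕ) (H : ℕ → SimpleGraph V) (x : V) (U : Finset V)
    (h : Vis (fun g : SimpleGraph V => g) (List.ofFn (fun i : Fin N => H i)) x U) :
    ∃ v : ℕ → V, v 0 = x ∧ (∀ i < N, v (i + 1) = v i ∨ (H i).Adj (v i) (v (i + 1))) ∧
      ∀ y ∈ U, ∃ i ≤ N, v i = y := by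
  induction N generalizing H x U with
  | zero =>
    refine ⟨fun _ => x, rfl, fun i hi => absurd hi (Nat.not_lt_zero i), fun y hy => ⟨0, le_rfl, ?_⟩⟩
    rw [List.ofFn_zero] at h
    have := h hy
    rw [Finset.mem_singleton] at this
    exact this.symm
  | succ N ih =>
    rw [List.ofFn_succ] at h
    obtain ⟨z, hz, h⟩ := h
    obtain ⟨v, hv0, hv1, hv2⟩ := ih (fun i => H (i + 1)) z (U.erase x) h
    refine ⟨fun i => Nat.casesOn i x v, rfl, ?_, ?_⟩
    · intro i hi
      cases i with
      | zero =>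
        change v 0 = x ∨ (H 0).Adj x (v 0)
        rw [hv0]
        exact hz
      | succ i => exact hv1 i (by omega)
    · intro y hy
      by_cases hyx : y = x
      · exact ⟨0, Nat.zero_le _, hyx.symm⟩
      · obtain ⟨i, hi, e⟩ := hv2 y (Finset.mem_erase.2 ⟨hyx, hy⟩)
        exact ⟨i + 1, by omega, e⟩

/-- the probability that `N` independent snapshots do not suffice -/
theorem prob_le {V : Type*} [Fintype V] (S : Set (SimpleGraph V)) (μ : PMF (SimpleGraph V))
    (hS : ∀ T, T ∉ S → μ T = 0) {Ω : Type*} [MeasurableSpace Ω] {P : Measure Ω}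
    (G : ℕ → Ω → SimpleGraph V)
    (hG : ∀ (N : ℕ) (T : Fin N → SimpleGraph V), P {ω | ∀ i : Fin N, G i ω = T i} = ∏ i, μ (T i))
    (N : ℕ) (x : V) (U : Finset V) :
    P {ω | ¬ Vis (fun g : SimpleGraph V => g) (List.ofFn (fun i : Fin N => G i ω)) x U} ≤
      ENNReal.ofReal (pf (fun g : S => (μ g.1).toReal) (fun g : S => g.1) N x U) := by
  have e1 : pf (fun g : S => (μ g.1).toReal) (fun g : S => g.1) N x U =
      ∑ T : Fin N → SimpleGraph V, (∏ i, (μ (T i)).toReal) *
        (if Vis (fun g : SimpleGraph V => g) (List.ofFn T) x U then 0 else 1) := by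
    rw [← Ex_eq_sum (fun T => (μ T).toReal) N
      (fun l => if Vis (fun g : SimpleGraph V => g) l x U then 0 else 1)]
    rw [Ex_sub S (fun T => (μ T).toReal) (fun g hg => by rw [hS g hg]; rfl)]
    unfold pf
    congr 1
    funext l
    simp only [Vis_map]
  have e2 : ENNReal.ofReal (∑ T : Fin N → SimpleGraph V, (∏ i, (μ (T i)).toReal) *
        (if Vis (fun g : SimpleGraph V => g) (List.ofFn T) x U then 0 else 1)) =
      ∑ T ∈ univ.filter (fun T : Fin N → SimpleGraph V =>
        ¬ Vis (fun g : SimpleGraph V => g) (List.ofFn T) x U), ∏ i, μ (T i) := by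
    rw [ENNReal.ofReal_sum_of_nonneg (fun T _ => mul_nonneg
      (Finset.prod_nonneg fun i _ => ENNReal.toReal_nonneg) (by split_ifs <;> norm_num)),
      Finset.sum_filter]
    refine Finset.sum_congr rfl fun T _ => ?_
    by_cases hT : Vis (fun g : SimpleGraph V => g) (List.ofFn T) x U
    · rw [if_pos hT, if_neg (not_not.2 hT), mul_zero, ENNReal.ofReal_zero]
    · rw [if_neg hT, if_pos hT, mul_one, ENNReal.ofReal_prod_of_nonneg
        (fun i _ => ENNReal.toReal_nonneg)]
      exact Finset.prod_congr rfl fun i _ => ENNReal.ofReal_toReal (μ.apply_ne_top _)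
  rw [e1, e2]
  have sub : {ω | ¬ Vis (fun g : SimpleGraph V => g) (List.ofFn (fun i : Fin N => G i ω)) x U} ⊆
      ⋃ T ∈ univ.filter (fun T : Fin N → SimpleGraph V =>
        ¬ Vis (fun g : SimpleGraph V => g) (List.ofFn T) x U), {ω | ∀ i : Fin N, G i ω = T i} := by
    intro ω hω
    refine Set.mem_biUnion (x := fun i : Fin N => G i ω) ?_ (fun i => rfl)
    simpa using hω
  refine (measure_mono sub).trans ((measure_biUnion_finset_le _ _).trans (le_of_eq ?_))
  exact Finset.sum_congr rfl fun T _ => hG N T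

end Pool.Agent.RST42
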