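import Pool.Agent.RST42.Count

/-! The bound for the failure probability. -/

namespace Pool.Agent.RST42

open Finset Classical

variable {V Γ : Type*} [Fintype Γ] {p : Γ → ℝ} {G : Γ → SimpleGraph V} [Fintype V]

theorem cost_ok (h : IsLaw p) (hc : ∀ g, (G g).Connected) {S : ℕ} (hS : 0 < S)
    {x : V} {U : Finset V} (hU : U.Nonempty) (hx : x ∉ U) :
    1 ≤ cost p G S (Fintype.card V) x U ∧
      ((1 / (16 * (S : ℝ)) * cost p G S (Fintype.card V) x U ≤ 1 / 16 ∧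
        1 / 8 ≤ q p G (cost p G S (Fintype.card V) x U) x U) ∨
        q p G (cost p G S (Fintype.card V) x U) x U = 1) := by
  have hS' : (0 : ℝ) < S := by exact_mod_cast hS
  unfold cost
  split_ifs with hs
  · have h1 := Nat.find_spec hs
    refine ⟨?_, Or.inl ⟨?_, h1.2⟩⟩
    · by_contra hc0
      have h0 : Nat.find hs = 0 := by omega
      rw [h0] at h1
      have h2 : q p G 0 x U = 0 := by
        unfold q
        rw [Ex_zero, if_neg]
        rintro ⟨y, hy, e⟩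
        have e' : x = y := e
        exact hx (e' ▸ hy)
      rw [h2] at h1
      linarith [h1.2]
    · have h3 : ((Nat.find hs : ℕ) : ℝ) ≤ S := by exact_mod_cast h1.1
      rw [one_div_mul_eq_div, div_le_div_iff₀ (by positivity) (by norm_num)]
      linarith
  · have hn : 0 < Fintype.card V := Fintype.card_pos_iff.2 ⟨x⟩
    exact ⟨hn, Or.inr (q_full h hc (Nat.le_succ _) x hU)⟩

theorem num_bound {n d θ t0 t1 : ℝ} (hn : 1 ≤ n) (hd : 1 ≤ d) (hdn : d ≤ n) (hθ0 : 0 ≤ θ)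
    (hθ1 : θ ≤ 1) (a0 : 64 * √d ≤ t0) (a1 : t0 ≤ 64 * √d + 128 * θ * n + 2)
    (b0 : 64 * √(d * n) ≤ t1) (b1 : t1 ≤ 64 * √(d * n) + 128 * θ * n + 2) :
    2 * n * t0 + 16 * n * θ * t1 + 16384 * d * n / t0 +
      n * (8 * n * θ + 4096 * d * n / t1 ^ 2) ≤ 389 * (√d * n) + 3368 * (θ * n ^ 2) := by
  have hn0 : 0 < n := by linarith
  have hd0 : 0 < d := by linarith
  have hsd : 1 ≤ √d := by
    rw [Real.one_le_sqrt]; exact hd
  have hsq : √d * √d = d := Real.mul_self_sqrt hd0.le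
  have hsdn : √(d * n) ≤ n := by
    rw [Real.sqrt_le_left hn0.le]
    nlinarith
  have hsqn : √(d * n) * √(d * n) = d * n := Real.mul_self_sqrt (by positivity)
  have hs0 : 0 < √(d * n) := Real.sqrt_pos.2 (by positivity)
  have t0pos : 0 < t0 := by linarith
  have t1pos : 0 < t1 := by linarith
  have c1 : 16384 * d * n / t0 ≤ 256 * (√d * n) := by
    rw [div_le_iff₀ t0pos]
    have : 256 * (√d * n) * (64 * √d) ≤ 256 * (√d * n) * t0 :=
      mul_le_mul_of_nonneg_left a0 (by positivity)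
    calc 16384 * d * n = 16384 * (√d * √d) * n := by rw [hsq]
      _ = 256 * (√d * n) * (64 * √d) := by ring
      _ ≤ _ := this
  have c2 : 4096 * d * n / t1 ^ 2 ≤ 1 := by
    rw [div_le_iff₀ (by positivity), one_mul]
    have : (64 * √(d * n)) ^ 2 ≤ t1 ^ 2 := pow_le_pow_left₀ (by positivity) b0 2
    calc 4096 * d * n = (64 * √(d * n)) ^ 2 := by rw [mul_pow, sq √(d * n), hsqn]; ring
      _ ≤ _ := this
  have c3 : 2 * n * t0 ≤ 2 * n * (64 * √d + 128 * θ * n + 2) :=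
    mul_le_mul_of_nonneg_left a1 (by positivity)
  have c4 : 16 * n * θ * t1 ≤ 16 * n * θ * (64 * n + 128 * θ * n + 2) :=
    mul_le_mul_of_nonneg_left (by linarith) (by positivity)
  have c5 : n * (8 * n * θ + 4096 * d * n / t1 ^ 2) ≤ n * (8 * n * θ + 1) :=
    mul_le_mul_of_nonneg_left (by linarith) hn0.le
  have c6 : n ≤ √d * n := by nlinarith
  have c7 : θ * n ≤ θ * n ^ 2 := by
    have : θ * n * 1 ≤ θ * n * n := mul_le_mul_of_nonneg_left hn (by positivity)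
    linarith
  have c8 : θ * (θ * n ^ 2) ≤ 1 * (θ * n ^ 2) := mul_le_mul_of_nonneg_right hθ1 (by positivity)
  nlinarith

theorem main_pf (h : IsLaw p) (hc : ∀ g, (G g).Connected) {d : ℕ} (hd1 : 1 ≤ d)
    (hdn : d ≤ Fintype.card V) (hd : ∀ g w, (univ.filter (fun v => (G g).Adj w v)).card ≤ d)
    {θ : ℝ} (hθ0 : 0 ≤ θ) (hθ1 : θ ≤ 1) (hθ : ∀ v w, P1 p (fun g => (G g).Adj v w) ≤ θ)
    (x : V) {N : ℕ}
    (hN : 60000 * (√d * Fintype.card V + θ * (Fintype.card V : ℝ) ^ 2) ≤ N) :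
    pf p G N x (univ.erase x) ≤ Real.exp (-√(Fintype.card V)) := by
  rcases subsingleton_or_nontrivial V with hsub | hnt
  · have e : (univ.erase x : Finset V) = ∅ := by
      rw [Finset.eq_empty_iff_forall_notMem]
      intro y hy
      exact (Finset.ne_of_mem_erase hy) (Subsingleton.elim y x)
    rw [e, pf_empty]
    exact (Real.exp_pos _).le
  have hex : ∀ g v, ∃ w, (G g).Adj v w := by
    intro g v
    exact (hc g).preconnected.exists_adj_of_nontrivial v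
  choose φ hadj using hex
  have hd' : ∀ g w, (univ.filter (fun v => φ g v = w)).card ≤ d := by
    intro g w
    refine (Finset.card_le_card fun v hv => ?_).trans (hd g w)
    rw [Finset.mem_filter] at hv ⊢
    exact ⟨hv.1, hv.2 ▸ (hadj g v).symm⟩
  have hθ' : ∀ v w, P1 p (fun g => φ g v = w) ≤ θ := fun v w =>
    (P1_mono h fun g e => e ▸ hadj g v).trans (hθ v w)
  set n : ℝ := (Fintype.card V : ℝ) with hn
  have hn1 : 1 ≤ n := by
    have : 1 ≤ Fintype.card V := Fintype.card_pos_iff.2 ⟨x⟩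
    rw [hn]
    exact_mod_cast this
  have hd1' : (1 : ℝ) ≤ d := by exact_mod_cast hd1
  have hdn' : (d : ℝ) ≤ n := by rw [hn]; exact_mod_cast hdn
  have hsd : 1 ≤ √(d : ℝ) := by rw [Real.one_le_sqrt]; exact hd1'
  set T0 : ℕ := ⌈64 * √(d : ℝ)⌉₊ + ⌈128 * θ * n⌉₊ with hT0
  set T1 : ℕ := ⌈64 * √((d : ℝ) * n)⌉₊ + ⌈128 * θ * n⌉₊ with hT1
  have e0 : 64 * √(d : ℝ) ≤ (⌈64 * √(d : ℝ)⌉₊ : ℝ) := Nat.le_ceil _
  have e1 : (⌈64 * √(d : ℝ)⌉₊ : ℝ) < 64 * √(d : ℝ) + 1 := Nat.ceil_lt_add_one (by positivity)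
  have e2 : 128 * θ * n ≤ (⌈128 * θ * n⌉₊ : ℝ) := Nat.le_ceil _
  have e3 : (⌈128 * θ * n⌉₊ : ℝ) < 128 * θ * n + 1 := Nat.ceil_lt_add_one (by positivity)
  have e4 : 64 * √((d : ℝ) * n) ≤ (⌈64 * √((d : ℝ) * n)⌉₊ : ℝ) := Nat.le_ceil _
  have e5 : (⌈64 * √((d : ℝ) * n)⌉₊ : ℝ) < 64 * √((d : ℝ) * n) + 1 :=
    Nat.ceil_lt_add_one (by positivity)
  have z2 : 0 ≤ 128 * θ * n := by positivity
  have hT0pos : 1 ≤ T0 := by
    have : 0 < ⌈64 * √(d : ℝ)⌉₊ := Nat.ceil_pos.2 (by positivity)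
    omega
  have hT01 : T0 ≤ T1 := by
    have : ⌈64 * √(d : ℝ)⌉₊ ≤ ⌈64 * √((d : ℝ) * n)⌉₊ := by
      refine Nat.ceil_le_ceil ?_
      have : √(d : ℝ) ≤ √((d : ℝ) * n) := Real.sqrt_le_sqrt (by nlinarith)
      linarith
    omega
  have hT0r : (T0 : ℝ) = ⌈64 * √(d : ℝ)⌉₊ + ⌈128 * θ * n⌉₊ := by rw [hT0]; push_cast; ring
  have hT1r : (T1 : ℝ) = ⌈64 * √((d : ℝ) * n)⌉₊ + ⌈128 * θ * n⌉₊ := by rw [hT1]; push_cast; ring
  have hS : 0 < 2 * T1 := by omega
  have hT1pos : (0 : ℝ) < T1 := by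
    have : 0 < T1 := by omega
    exact_mod_cast this
  set β : ℝ := 389 * (√(d : ℝ) * n) + 3368 * (θ * n ^ 2) with hβ
  have key := pf_exp (G := G) h (lam := 1 / (16 * ((2 * T1 : ℕ) : ℝ))) (by positivity)
    (cost p G (2 * T1) (Fintype.card V)) (fun y U hU hy => cost_ok h hc hS hU hy)
    (univ.erase x).card (univ.erase x) rfl x (Finset.notMem_erase x _) β (fun l hl hlU => by
      have hxl : x ∉ l := fun hx => by
        have : x ∈ (univ.erase x : Finset V) := by rw [← hlU]; simpa using hx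
        exact Finset.notMem_erase x _ this
      refine (tot_real h hadj hd1 hd' hθ0 hθ' hT0pos hT01 ?_ (List.nodup_cons.2 ⟨hxl, hl⟩)).trans ?_
      · rw [← hn, hT0r]
        linarith [Nat.cast_nonneg (α := ℝ) ⌈64 * √(d : ℝ)⌉₊]
      · rw [← hn]
        refine num_bound hn1 hd1' hdn' hθ0 hθ1 ?_ ?_ ?_ ?_
        · rw [hT0r]; linarith
        · rw [hT0r]; linarith
        · rw [hT1r]; linarith
        · rw [hT1r]; linarith) N
  refine key.trans (Real.exp_le_exp.2 ?_)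
  rw [one_div_mul_eq_div, div_le_iff₀ (by positivity)]
  push_cast
  have f1 : (T1 : ℝ) ≤ 64 * √((d : ℝ) * n) + 128 * θ * n + 2 := by rw [hT1r]; linarith
  have f2 : √n * √((d : ℝ) * n) = √(d : ℝ) * n := by
    rw [Real.sqrt_mul (by positivity), mul_left_comm, Real.mul_self_sqrt (by linarith)]
  have f3 : √n ≤ n := by
    rw [Real.sqrt_le_left (by linarith)]
    nlinarith
  have f4 : √n * T1 ≤ √n * (64 * √((d : ℝ) * n) + 128 * θ * n + 2) :=
    mul_le_mul_of_nonneg_left f1 (Real.sqrt_nonneg _)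
  have f5 : √n * (64 * √((d : ℝ) * n) + 128 * θ * n + 2) =
      64 * (√(d : ℝ) * n) + 128 * (θ * n) * √n + 2 * √n := by
    rw [← f2]; ring
  have f6 : (θ * n) * √n ≤ θ * n ^ 2 := by
    have := mul_le_mul_of_nonneg_left f3 (by positivity : 0 ≤ θ * n)
    linarith
  have f7 : n ≤ √(d : ℝ) * n := by nlinarith
  have f8 : 0 ≤ √(d : ℝ) * n := by positivity
  have f9 : 0 ≤ θ * n ^ 2 := by positivity
  rw [hβ]
  linarith

end Pool.Agent.RST42
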