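import Pool.Agent.RST42.Ex

/-! Temporal walks along a list of snapshots. -/

namespace Pool.Agent.RST42

open Finset Classical

variable {V Γ : Type*}

/-- `y` can be reached from `x` by a temporal walk along the snapshots `l` -/
def R (G : Γ → SimpleGraph V) : List Γ → V → V → Prop
  | [], x, y => x = y
  | g :: l, x, y => ∃ z, (z = x ∨ (G g).Adj x z) ∧ R G l z y

/-- a temporal walk along `l` from `x` can visit all of `U` (`x` counts as visited) -/
def Vis (G : Γ → SimpleGraph V) : List Γ → V → Finset V → Prop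
  | [], x, U => U ⊆ {x}
  | g :: l, x, U => ∃ z, (z = x ∨ (G g).Adj x z) ∧ Vis G l z (U.erase x)

variable {G : Γ → SimpleGraph V}

theorem R_refl (l : List Γ) (x : V) : R G l x x := by
  induction l with
  | nil => rfl
  | cons g l ih => exact ⟨x, Or.inl rfl, ih⟩

theorem R_append {l l' : List Γ} {x y z : V} (h : R G l x y) (h' : R G l' y z) :
    R G (l ++ l') x z := by
  induction l generalizing x with
  | nil => obtain rfl : x = y := h; exact h'
  | cons g l ih =>
    obtain ⟨w, hw, h⟩ := h
    exact ⟨w, hw, ih h⟩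

/-- one step inside a list -/
theorem R_mem {l : List Γ} {g : Γ} (hg : g ∈ l) {x y : V} (h : (G g).Adj x y) : R G l x y := by
  induction l with
  | nil => simp at hg
  | cons g' l ih =>
    rcases List.mem_cons.1 hg with rfl | hg
    · exact ⟨y, Or.inr h, R_refl l y⟩
    · exact ⟨x, Or.inl rfl, ih hg⟩

theorem Vis_mono {l : List Γ} {x : V} {U U' : Finset V} (hU : U' ⊆ U) (h : Vis G l x U) :
    Vis G l x U' := by
  induction l generalizing x U U' with
  | nil => exact hU.trans h
  | cons g l ih =>
    obtain ⟨z, hz, h⟩ := h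
    exact ⟨z, hz, ih (Finset.erase_subset_erase x hU) h⟩

theorem Vis_erase {l : List Γ} {x : V} {U : Finset V} (h : Vis G l x (U.erase x)) :
    Vis G l x U := by
  cases l with
  | nil =>
    intro y hy
    by_cases hyx : y = x
    · simp [hyx]
    · exact h (Finset.mem_erase.2 ⟨hyx, hy⟩)
  | cons g l =>
    obtain ⟨z, hz, h⟩ := h
    refine ⟨z, hz, Vis_mono ?_ h⟩
    intro y hy
    rw [Finset.mem_erase] at hy ⊢
    exact ⟨hy.1, Finset.mem_erase.2 hy⟩

theorem Vis_append {l l' : List Γ} {x y : V} {U : Finset V} (h : R G l x y)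
    (h' : Vis G l' y U) : Vis G (l ++ l') x U := by
  induction l generalizing x U with
  | nil => obtain rfl : x = y := h; exact h'
  | cons g l ih =>
    obtain ⟨w, hw, h⟩ := h
    exact ⟨w, hw, ih h (Vis_mono (Finset.erase_subset x U) h')⟩

theorem Vis_empty (l : List Γ) (x : V) : Vis G l x ∅ := by
  induction l generalizing x with
  | nil => exact Finset.empty_subset _
  | cons g l ih => exact ⟨x, Or.inl rfl, by simpa using ih x⟩

/-- connected snapshots: the reached set grows until it is everything -/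
theorem R_all [Fintype V] (hc : ∀ g, (G g).Connected) (l : List Γ) (A : Finset V)
    (hA : A.Nonempty) (h : Fintype.card V ≤ A.card + l.length) (y : V) :
    ∃ x ∈ A, R G l x y := by
  induction l generalizing A with
  | nil =>
    have : A = Finset.univ := by
      refine Finset.eq_univ_of_card A (le_antisymm (Finset.card_le_univ A) ?_)
      simpa using h
    exact ⟨y, by rw [this]; exact Finset.mem_univ y, rfl⟩
  | cons g l ih =>
    by_cases hy : y ∈ A
    · exact ⟨y, hy, R_refl _ y⟩
    · obtain ⟨a, ha⟩ := hA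
      obtain ⟨w⟩ := (hc g).preconnected a y
      obtain ⟨d, _, h1, h2⟩ := w.exists_boundary_dart (A : Set V) ha (by simpa using hy)
      have h2' : d.snd ∉ A := by simpa using h2
      obtain ⟨x', hx', hR⟩ := ih (insert d.snd A) (Finset.insert_nonempty _ _) (by
        rw [Finset.card_insert_of_notMem h2']
        simp only [List.length_cons] at h
        omega)
      rcases Finset.mem_insert.1 hx' with rfl | hx'
      · exact ⟨d.fst, by simpa using h1, d.snd, Or.inr d.adj, hR⟩
      · exact ⟨x', hx', x', Or.inl rfl, hR⟩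

variable [Fintype Γ]

/-- probability to reach `U` from `x` in `T` steps -/
noncomputable def q (p : Γ → ℝ) (G : Γ → SimpleGraph V) (T : ℕ) (x : V) (U : Finset V) : ℝ :=
  Ex p T (fun l => if ∃ y ∈ U, R G l x y then 1 else 0)

/-- probability that `N` snapshots do not suffice to visit `U` from `x` -/
noncomputable def pf (p : Γ → ℝ) (G : Γ → SimpleGraph V) (N : ℕ) (x : V) (U : Finset V) : ℝ :=
  Ex p N (fun l => if Vis G l x U then 0 else 1)

variable {p : Γ → ℝ}

theorem q_nonneg (h : IsLaw p) (T : ℕ) (x : V) (U : Finset V) : 0 ≤ q p G T x U :=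
  Ex_nonneg h fun l _ => by split_ifs <;> norm_num

theorem q_le_one (h : IsLaw p) (T : ℕ) (x : V) (U : Finset V) : q p G T x U ≤ 1 := by
  rw [← Ex_const (p := p) h T 1]
  exact Ex_mono h fun l _ => by split_ifs <;> norm_num

theorem pf_le_one (h : IsLaw p) (N : ℕ) (x : V) (U : Finset V) : pf p G N x U ≤ 1 := by
  rw [← Ex_const (p := p) h N 1]
  exact Ex_mono h fun l _ => by split_ifs <;> norm_num

theorem pf_nonneg (h : IsLaw p) (N : ℕ) (x : V) (U : Finset V) : 0 ≤ pf p G N x U :=
  Ex_nonneg h fun l _ => by split_ifs <;> norm_num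

theorem pf_empty (N : ℕ) (x : V) : pf p G N x ∅ = 0 := by
  unfold pf
  have : (fun l : List Γ => if Vis G l x ∅ then (0 : ℝ) else 1) = fun _ => 0 * (1 : ℝ) := by
    funext l; simp [Vis_empty]
  rw [this, Ex_smul]
  ring

theorem q_mono_time (h : IsLaw p) {S T : ℕ} (hST : S ≤ T) (x : V) (U : Finset V) :
    q p G S x U ≤ q p G T x U := by
  obtain ⟨k, rfl⟩ := Nat.exists_eq_add_of_le hST
  unfold q
  rw [Ex_append]
  refine Ex_mono h fun l _ => ?_
  split_ifs with h1
  · obtain ⟨y, hy, hR⟩ := h1
    rw [← Ex_const (p := p) h k 1]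
    refine Ex_mono h fun l' _ => ?_
    rw [if_pos ⟨y, hy, R_append hR (R_refl l' y)⟩, Ex_const h]
  · exact Ex_nonneg h fun l' _ => by split_ifs <;> norm_num

theorem q_mono_set (h : IsLaw p) (T : ℕ) (x : V) {U U' : Finset V} (hU : U ⊆ U') :
    q p G T x U ≤ q p G T x U' := by
  refine Ex_mono h fun l _ => ?_
  split_ifs with h1 h2 h2
  · exact le_rfl
  · obtain ⟨y, hy, hR⟩ := h1
    exact absurd ⟨y, hU hy, hR⟩ h2
  · norm_num
  · exact le_rfl

theorem q_full [Fintype V] (h : IsLaw p) (hc : ∀ g, (G g).Connected) {T : ℕ}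
    (hT : Fintype.card V ≤ T + 1) (x : V) {U : Finset V} (hU : U.Nonempty) : q p G T x U = 1 := by
  refine le_antisymm (q_le_one h T x U) ?_
  rw [← Ex_const (p := p) h T 1]
  refine Ex_mono h fun l hl => ?_
  obtain ⟨y, hy⟩ := hU
  obtain ⟨x', hx', hR⟩ := R_all hc l {x} (Finset.singleton_nonempty x) (by
    rw [Finset.card_singleton, hl]; omega) y
  rw [Finset.mem_singleton] at hx'
  rw [if_pos ⟨y, hy, hx' ▸ hR⟩]

/-- the greedy step -/
theorem pf_step (h : IsLaw p) (S N : ℕ) (x : V) (U : Finset V) {a b : ℝ}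
    (ha : ∀ y ∈ U, pf p G N y (U.erase y) ≤ a) (hb : pf p G N x U ≤ b) :
    pf p G (S + N) x U ≤ q p G S x U * a + (1 - q p G S x U) * b := by
  have key : pf p G (S + N) x U ≤
      Ex p S (fun l => if ∃ y ∈ U, R G l x y then a else b) := by
    unfold pf
    rw [Ex_append]
    refine Ex_mono h fun l _ => ?_
    split_ifs with h1
    · obtain ⟨y, hy, hR⟩ := h1
      refine le_trans (Ex_mono h fun l' _ => ?_) (ha y hy)
      by_cases h2 : Vis G l' y (U.erase y)
      · rw [if_pos (Vis_append hR (Vis_erase h2)), if_pos h2]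
      · rw [if_neg h2]; split_ifs <;> norm_num
    · refine le_trans (Ex_mono h fun l' _ => ?_) hb
      by_cases h2 : Vis G l' x U
      · rw [if_pos (Vis_append (R_refl l x) h2), if_pos h2]
      · rw [if_neg h2]; split_ifs <;> norm_num
  refine key.trans (le_of_eq ?_)
  have e : (fun l : List Γ => if ∃ y ∈ U, R G l x y then a else b) =
      fun l => (a - b) * (if ∃ y ∈ U, R G l x y then 1 else 0) + b := by
    funext l
    split_ifs <;> ring
  rw [e, Ex_add, Ex_smul, Ex_const h]
  unfold q
  ring

end Pool.Agent.RST42
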